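import Pool.Agent.H55.T4.Row

/-!
# The total row of the coordinates of the tie: the numbers in a box

`row_num`: `row_ldp` with the numbers of the box of a record (the fields `lad`, `img`, `room`, `lin`,
`row` of `BoxT` and the label of the last place at the base `a`). `a`: the window of the labels (the
base of the frame), `x`: the end window of the block, `x'`: the window of the digits of the slope-one
places, `μ`: the length of the block, `Dd`: the targets which are not alive.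
-/

set_option autoImplicit false

namespace Pool.T4R

open Finset Real MvPolynomial
open Pool.Agent.H49.Ent Pool.Agent.H32.Dense
open Pool.STK hiding pr2
open Pool.KA Pool.KSAT Pool.K2S Pool.PB Pool.S6C
open Pool.GEN Pool.CHT Pool.CHX Pool.ISO Pool.LA91 Pool.AVG71 Pool.AVG5 Pool.D2F2 Pool.AVG57
open Pool.RCD Pool.AVG96 Pool.OWN68 Pool.V0F Pool.V0Q Pool.V0T
open Pool.T4H (RowT)

/-- The near digits of the heights. -/
noncomputable def nP1 (k : ℕ) (sn : ℕ → ℝ → ℝ) (x μ e : ℝ) (Dd : Finset ℕ) (v : ℕ) : ℝ :=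
  if v ∈ Dd then sn (k + v) x - e else sn (k + v) x - 2 * e - μ

/-- The far digits of the heights. -/
noncomputable def nP2 (k : ℕ) (sn : ℕ → ℝ → ℝ) (x e : ℝ) (v : ℕ) : ℝ := sn (k + v) x - e

/-- **(ii) The row of the coordinates of the tie in a box.** -/
theorem row_num (k f : ℕ) : ∃ Cr : ℝ, 1 ≤ Cr ∧
  ∀ {m : ℕ} {S : PCl m} {c : ℕ → Fin m} {sn : ℕ → ℝ → ℝ} {G : Set ℝ} {b o φ : ℝ},
    LadT S c k f sn G b o φ → (range (k + f)).image c = univ.erase (c (k + f)) →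
    ∀ {s h w u Λ : ℝ}, 1 ≤ s → o + Λ * u ≤ 1 →
    (∀ l ≤ k + f, Λ * u ≤ sn l b ∧ sn l o + Λ * u ≤ 1) →
    (∀ l, k ≤ l → l ≤ k + f → ∀ v ∈ G, b ≤ v → v ≤ o → |sn l v - sn l w - s * (v - w)| ≤ φ) →
    (∀ P₁ P₂ : ℝ, |P₁ - sn (k + f) w| ≤ Λ * u → |P₂ - sn (k + f) w| ≤ Λ * u → P₁ ≤ P₂ →
      RawN S (univ.erase (c (k + f))) (c (k + f)) P₁ (P₂ - P₁) h φ) →
    -- the windows and the digits
    ∀ {a w₁ x x' μ ν : ℝ} {n : ℕ → ℝ}, a ∈ G → x ∈ G → x' ∈ G → b ≤ a → a ≤ x → x' ≤ o →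
    0 ≤ μ → 0 ≤ ν → s * (x - a) + 3 * Cr * φ ≤ x' - a → s * |x - w| + μ + 4 * Cr * φ ≤ Λ * u →
    s * (x - a) + 3 * φ ≤ Λ * u →
    (∀ i < k, sn i x' ≤ n i ∧ n i ≤ sn i x' + ν) → ν + 30 * ((k : ℝ) + 1) * φ ≤ Λ * u →
    (∃ rk E₁ : ℝ, rk < 1 ∧ 0 ≤ E₁ ∧
      AttG S ((range (k + f)).image c) (c (k + f)) a (sn (k + f) a) rk E₁ ∧
      sn (k + f) a + E₁ + Λ * u ≤ 1) → a ≤ w₁ → w₁ ≤ 1 →
    (∃ η : ℝ, RNum S (fun J F => ptr F J) (vg w₁) η) → ∀ Dd : Finset ℕ, f ∉ Dd →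
    ∀ π₀ : ℝ, 0 < π₀ → ∀ ε : ℝ, 0 < ε →
    ∀ (D : ℕ) (Ec : ℝ), Bas S (fun J F A =>
      ∀ Hb H : LnT F → ℕ → MvPolynomial (Option (Fin m)) ℝ, LDP F c k f D b a φ Ec sn A Hb H →
      ∀ {C : ℕ} {al : Fin C → ℕ} {g : Fin C → ℕ} {q : ℕ} {z : F.Ω → Fin C → ℤ}
        {xc : F.Ω → Fin C → ℝ} {υ : Type} {Yb : F.Ω → υ} {B K θ : ℝ},
      RowA F c k f ⌊a * J⌋₊ (Pool.Agent.H49.Ent.cond F.p A True) H n (nP1 k sn x μ (Cr * φ) Dd)
        (nP2 k sn x (Cr * φ)) al g q z xc Yb B K θ →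
      Det (Pool.Agent.H49.Ent.cond F.p A True) Yb (fun ω => (cR F A w₁ ω, F.W ω)) →
      ∀ r : ℝ, (((1 - h) + (range f \ Dd).card) * (μ + Cr * φ) * Real.log 2 + φ +
          8 * ((f : ℝ) + 1) * Cr * φ + ε) * J +
          (((f : ℝ) + 2) * θ + ((f : ℝ) + 1 + C) * Real.log (2 * (K + 2 * B + 2) + 1)) / π₀ ≤ r →
      RowT (Pool.Agent.H49.Ent.cond F.p A True) z Yb q r π₀) := by
  obtain ⟨Cr, hCr1, H0⟩ := row_ldp k f
  refine ⟨Cr, hCr1, ?_⟩
  intro m S c sn G b o φ L hI s h w u Λ hs hoΛ hroom hlin hrow a w₁ x x' μ ν n ha hx hx' hba hax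
    hxo hμ hν hN1 hN2 hN3 hn hνΛ hatt haw hw₁ hη Dd hDd π₀ hπ ε hε D Ec
  obtain ⟨rk, Ee, hrk, hEe, hat, hEs⟩ := hatt
  have hφ0 := L.φ0
  have hb0 := L.b0
  have hk0 : (0 : ℝ) ≤ k := Nat.cast_nonneg k
  have hkφ : 0 ≤ (k : ℝ) * φ := by positivity
  have hCφ : φ ≤ Cr * φ := le_mul_of_one_le_left hφ0.le hCr1
  have e30 : 30 * ((k : ℝ) + 1) * φ = 30 * (k * φ) + 30 * φ := by ring
  have hsx : x - a ≤ s * (x - a) := le_mul_of_one_le_left (by linarith) hs
  have hxx : x + Cr * φ ≤ x' := by linarith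
  have hxo' : x ≤ o := by linarith
  have hbx : b ≤ x := hba.trans hax
  have hbx' : b ≤ x' := by linarith
  have hao : a ≤ o := hax.trans hxo'
  have hsabs : |x - w| ≤ s * |x - w| := le_mul_of_one_le_left (abs_nonneg _) hs
  have hΛ4 : μ + 4 * Cr * φ ≤ Λ * u := by linarith [abs_nonneg (x - w)]
  -- the levels
  have hlev : ∀ l, k ≤ l → l ≤ k + f → sn l x ≤ sn l a + s * (x - a) + 2 * φ := fun l h1 h2 => by
    have a1 := abs_le.1 (hlin l h1 h2 x hx hbx hxo')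
    have a2 := abs_le.1 (hlin l h1 h2 a ha hba hao)
    have e1 : s * (x - a) = s * (x - w) - s * (a - w) := by ring
    rw [e1]
    linarith [a1.2, a2.1]
  have hup : ∀ l ≤ k + f, ∀ v ∈ G, b ≤ v → v ≤ o → sn l v ≤ sn l o + φ := fun l hl v hv h1 h2 => by
    rcases Nat.lt_or_ge l k with h3 | h3
    · have := abs_le.1 (L.fl l h3 v hv h1 h2)
      linarith [this.2]
    · have := L.st l h3 hl v hv o L.oG h1 h2 le_rfl
      linarith
  have hlo : ∀ l, k ≤ l → l ≤ k + f → Λ * u ≤ sn l x + φ := fun l h1 h2 => by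
    have a1 := L.st l h1 h2 b L.bG x hx le_rfl hbx hxo'
    have a2 := (hroom l h2).1
    linarith
  have hnx : ∀ i < k, sn i x' ≤ n i ∧ n i ≤ 1 := fun i hi => by
    obtain ⟨h1, h2⟩ := hn i hi
    have h3 := hup i (by omega) x' hx' hbx' hxo
    have h4 := (hroom i (by omega)).2
    exact ⟨h1, by linarith⟩
  have htp : Tp k sn b φ n := by
    have e20 : 20 * ((k : ℝ) + 1) * φ = 20 * (k * φ) + 20 * φ := by ring
    have h1 : ∀ i < k, n i - sn i b ≤ x' - b + 2 * φ + ν := fun i hi => by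
      have a1 := abs_le.1 (L.fl i hi x' hx' hbx' hxo)
      have a2 := abs_le.1 (L.fl i hi b L.bG le_rfl L.bo)
      linarith [(hn i hi).2, a1.2, a2.1]
    refine ⟨fun i hi => ?_, fun i hi l hl => ?_⟩
    · rw [e20]
      linarith [h1 i hi]
    · rw [e20]
      have a1 := abs_le.1 (L.fl l (by omega) b L.bG le_rfl L.bo)
      have a2 := (hroom l (by omega)).2
      linarith [h1 i hi, a1.2]
  have e2 : ∀ v, nP2 k sn x (Cr * φ) v = sn (k + v) x - Cr * φ := fun v => rfl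
  have e1 : ∀ v, v ∉ Dd → nP1 k sn x μ (Cr * φ) Dd v = sn (k + v) x - 2 * (Cr * φ) - μ :=
    fun v hv => if_neg hv
  have e1' : ∀ v, v ∈ Dd → nP1 k sn x μ (Cr * φ) Dd v = sn (k + v) x - Cr * φ :=
    fun v hv => if_pos hv
  have hP1le : ∀ v, nP1 k sn x μ (Cr * φ) Dd v ≤ sn (k + v) x - Cr * φ := fun v => by
    by_cases hv : v ∈ Dd
    · rw [e1' v hv]
    · rw [e1 v hv]
      linarith
  have hP1ge : ∀ v, sn (k + v) x - 2 * (Cr * φ) - μ ≤ nP1 k sn x μ (Cr * φ) Dd v := fun v => by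
    by_cases hv : v ∈ Dd
    · rw [e1' v hv]
      linarith
    · rw [e1 v hv]
  have hlw := abs_le.1 (hlin (k + f) (by omega) le_rfl x hx hbx hxo')
  have hsx1 : s * (x - w) ≤ s * |x - w| := mul_le_mul_of_nonneg_left (le_abs_self _) (by linarith)
  have hsx2 : -(s * |x - w|) ≤ s * (x - w) := by
    have h1 : s * (-|x - w|) ≤ s * (x - w) :=
      mul_le_mul_of_nonneg_left (neg_abs_le _) (by linarith)
    linarith
  have hraw : RawN S (univ.erase (c (k + f))) (c (k + f)) (nP1 k sn x μ (Cr * φ) Dd f)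
      (nP2 k sn x (Cr * φ) f - nP1 k sn x μ (Cr * φ) Dd f) h φ := by
    refine hrow _ _ ?_ ?_ ?_
    · rw [e1 f hDd, abs_le]
      constructor <;> linarith [hlw.1, hlw.2]
    · rw [e2, abs_le]
      constructor <;> linarith [hlw.1, hlw.2]
    · rw [e2]
      exact hP1le f
  refine Bas.mono 0 (H0 L hI (w := a) (w₁ := w₁) (x := x) (x' := x') (n := n)
    (P₁ := nP1 k sn x μ (Cr * φ) Dd) (P₂ := nP2 k sn x (Cr * φ)) (h := h) (δ := φ) ha hx hx' hba
    hax hxx hxo (by linarith) hnx htp (fun v hv => ⟨?_, hP1le v, ?_, ?_, ?_⟩) (fun v _ => ?_)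
    (fun v hv l hl => ?_) ⟨rk, Ee, hrk, hEe, hat, ?_⟩ hraw haw hw₁ hη π₀ hπ ε hε D Ec) ?_
  · have h1 := hlo (k + v) (by omega) (by omega)
    have h2 := hP1ge v
    linarith
  · rw [e2]
    have h1 := hup (k + v) (by omega) x hx hbx hxo'
    have h2 := (hroom (k + v) (by omega)).2
    linarith
  · rw [e2]
    linarith
  · rw [e2]
    have h1 := hlev (k + v) (by omega) (by omega)
    linarith
  · rw [e2]
    linarith
  · rw [e2]
    have h1 := hlev (k + v) (by omega) (by omega)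
    have h2 := hup l (by omega) a ha hba hao
    have h3 := (hroom l (by omega)).2
    linarith
  · rw [e2]
    have h1 := hlev (k + f) (by omega) (by omega)
    linarith
  · rintro J - F A H1 Hb H LDh C al g q z xc υ Yb B K θ R hY r hr
    refine H1 Hb H LDh R hY r (le_trans ?_ hr)
    have hJ0 : (0 : ℝ) ≤ J := Nat.cast_nonneg J
    have hl2 : 0 < Real.log 2 := Real.log_pos one_lt_two
    have e4 : ∑ v ∈ range f, (nP2 k sn x (Cr * φ) v - nP1 k sn x μ (Cr * φ) Dd v) =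
        ((range f \ Dd).card : ℝ) * (μ + Cr * φ) := by
      have e5 : ∀ v ∈ range f, nP2 k sn x (Cr * φ) v - nP1 k sn x μ (Cr * φ) Dd v =
          if v ∉ Dd then μ + Cr * φ else 0 := fun v _ => by
        by_cases hv : v ∈ Dd
        · rw [e2, e1' v hv, if_neg (fun h => h hv), sub_self]
        · rw [e2, e1 v hv, if_pos hv]
          ring
      rw [Finset.sum_congr rfl e5, ← Finset.sum_filter, Finset.sum_const, nsmul_eq_mul,
        Finset.filter_notMem_eq_sdiff]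
    have e6 : nP2 k sn x (Cr * φ) f - nP1 k sn x μ (Cr * φ) Dd f = μ + Cr * φ := by
      rw [e2, e1 f hDd]
      ring
    rw [e4, e6]
    refine le_of_eq ?_
    ring

end Pool.T4R
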