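import Pool.Agent.H91.V0T.Rowt
import Pool.Agent.H87.V0S.Plf
import Pool.Agent.H97.T4.S

/-!
# The total row of the coordinates of the tie

`ent_tr`: a row for the heights gives a row for coordinates which have few bits given the heights, and
conversely. `CH_osc`: few values. `RowA`: the coordinates `xc` of the alive targets differ from their
heights by numbers known from the side information `Yb` of the point. `row_ldp`: the row `RowT` of the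
coordinates from the rows of the heights (`t_rwr`), for all events of constant mass.
-/

set_option autoImplicit false

namespace Pool.T4R

open Finset Real MvPolynomial
open Pool.Agent.H49.Ent Pool.Agent.H32.Dense
open Pool.STK hiding pr2
open Pool.KA Pool.KSAT Pool.K2S Pool.PB Pool.S6C
open Pool.GEN Pool.CHT Pool.CHX Pool.ISO Pool.LA91 Pool.AVG71 Pool.AVG5 Pool.D2F2 Pool.AVG57
open Pool.RCD Pool.AVG96 Pool.OWN68 Pool.V0F Pool.V0Q Pool.V0T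
open Pool.AJW (CfB)
open Pool.T4H (RowT)

section ent

variable {Ω : Type} [Fintype Ω] {q : Ω → ℝ}

/-- **A row of coordinates from a row of heights.** `y`: digits which have few bits given the side
information. -/
theorem ent_tr (h0 : ∀ ω, 0 ≤ q ω) {T₁ T₂ T₃ T₄ T₅ T₆ T₇ : Type} {zN : Ω → T₁} {zF : Ω → T₂}
    {Y : Ω → T₃} {C : Ω → T₄} {u₁ : Ω → T₅} {u₂ : Ω → T₆} {y : Ω → T₇} {θ₀ θ₁ θ₂ r : ℝ}
    (hY : Det q Y C) (hy : CH q y Y ≤ θ₀)
    (h1 : CH q u₁ (fun ω => (zN ω, Y ω)) ≤ θ₁) (h2 : CH q zF (fun ω => (u₂ ω, Y ω)) ≤ θ₂)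
    (hr : CH q u₂ (fun ω => (u₁ ω, (y ω, C ω))) ≤ r) :
    CH q zF (fun ω => (zN ω, Y ω)) ≤ θ₀ + θ₁ + θ₂ + r := by
  have a1 := CH_le_add h0 zF u₁ (fun ω => (zN ω, Y ω))
  have a2 := CH_le_add h0 zF u₂ (fun ω => (u₁ ω, (zN ω, Y ω)))
  have b1 := CH_le_add h0 u₂ y (fun ω => (u₁ ω, (zN ω, Y ω)))
  have b2 : CH q y (fun ω => (u₁ ω, (zN ω, Y ω))) ≤ CH q y Y :=
    CH_mono_cond h0 fun ω ω' _ _ e => by
      simp only [Prod.mk.injEq] at e
      exact e.2.2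
  have a3 : CH q u₂ (fun ω => (y ω, (u₁ ω, (zN ω, Y ω)))) ≤
      CH q u₂ (fun ω => (u₁ ω, (y ω, C ω))) :=
    CH_mono_cond h0 fun ω ω' hω hω' e => by
      simp only [Prod.mk.injEq] at e ⊢
      exact ⟨e.2.1, e.1, hY ω ω' hω hω' e.2.2.2⟩
  have a4 : CH q zF (fun ω => (u₂ ω, (u₁ ω, (zN ω, Y ω)))) ≤ CH q zF (fun ω => (u₂ ω, Y ω)) :=
    CH_mono_cond h0 fun ω ω' _ _ e => by
      simp only [Prod.mk.injEq] at e ⊢
      exact ⟨e.1, e.2.2.2⟩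
  linarith

/-- **Few values** of an integer of small oscillation. -/
theorem CH_osc (hq : IsLaw q) {T : Type} {X : Ω → ℤ} {Z : Ω → T} {D : ℝ} (hD : 0 ≤ D)
    (h : ∀ ω ω', 0 < q ω → 0 < q ω' → Z ω = Z ω' → |(X ω : ℝ) - X ω'| ≤ D) :
    CH q X Z ≤ Real.log (2 * D + 1) := by
  classical
  refine Pool.OWN83.CH_int hq X Z (fun t => if h : ∃ ω', 0 < q ω' ∧ Z ω' = t then
    (X h.choose : ℝ) else 0) hD fun ω hω => ?_
  have h1 : ∃ ω', 0 < q ω' ∧ Z ω' = Z ω := ⟨ω, hω, rfl⟩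
  rw [dif_pos h1]
  exact h ω _ hω h1.choose_spec.1 h1.choose_spec.2.symm

theorem near_of_floor {x y : ℝ} (h : ⌊x⌋ = ⌊y⌋) : |x - y| ≤ 1 := by
  have h1 := Int.floor_le x
  have h2 := Int.lt_floor_add_one x
  have h3 := Int.floor_le y
  have h4 := Int.lt_floor_add_one y
  rw [h] at h1 h2
  rw [abs_le]
  constructor <;> linarith

theorem near_of_div {x y : ℤ} {q : ℕ} (h : x / 2 ^ q = y / 2 ^ q) : |(x : ℝ) - y| ≤ 2 ^ q := by
  have p : (0 : ℤ) < 2 ^ q := by positivity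
  have h1 := Int.emod_add_mul_ediv x (2 ^ q)
  have h2 := Int.emod_add_mul_ediv y (2 ^ q)
  have h3 := Int.emod_nonneg x p.ne'
  have h4 := Int.emod_nonneg y p.ne'
  have h5 := Int.emod_lt_of_pos x p
  have h6 := Int.emod_lt_of_pos y p
  rw [h] at h1
  have h7 : |x - y| ≤ 2 ^ q := by
    rw [abs_le]
    constructor <;> linarith
  exact_mod_cast h7

/-- **From the upper digits of the coordinate to the height.** -/
theorem tr_up {a b a' b' K B s g : ℝ} {z z' : ℤ} {q : ℕ} (hg0 : 0 < g) (hs0 : 0 < s)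
    (hs : s * 2 ^ q ≤ g) (hB : 0 ≤ B) (hz : |(z : ℝ) - g * a| ≤ B) (hz' : |(z' : ℝ) - g * a'| ≤ B)
    (h1 : |(a - b) - (a' - b')| ≤ K / g) (h2 : z / (2 : ℤ) ^ q = z' / (2 : ℤ) ^ q) :
    |((⌊s * b⌋ : ℤ) : ℝ) - (⌊s * b'⌋ : ℤ)| ≤ K + 2 * B + 2 := by
  have p1 : (1 : ℝ) ≤ 2 ^ q := one_le_pow₀ one_le_two
  have hsg : s ≤ g := le_trans (le_mul_of_one_le_right hs0.le p1) hs
  have h3 := near_of_div h2
  have h3' : |g * (a - a')| ≤ 2 ^ q + 2 * B := by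
    rw [abs_le] at h3 hz hz' ⊢
    constructor <;> linarith [h3.1, h3.2, hz.1, hz.2, hz'.1, hz'.2]
  have h4 : |s * (a - a')| ≤ 1 + 2 * B := by
    rw [abs_mul, abs_of_pos hs0]
    rw [abs_mul, abs_of_pos hg0] at h3'
    have e1 : s * |a - a'| * 2 ^ q ≤ (1 + 2 * B) * 2 ^ q := by
      have e2 : s * |a - a'| * 2 ^ q = s * 2 ^ q * |a - a'| := by ring
      have e3 : s * 2 ^ q * |a - a'| ≤ g * |a - a'| :=
        mul_le_mul_of_nonneg_right hs (abs_nonneg _)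
      have e4 : 2 * B ≤ 2 * B * 2 ^ q := le_mul_of_one_le_right (by linarith) p1
      have e5 : (1 + 2 * B) * 2 ^ q = 2 ^ q + 2 * B * 2 ^ q := by ring
      linarith
    exact le_of_mul_le_mul_right e1 (by positivity)
  have h5 : |s * ((a - b) - (a' - b'))| ≤ K := by
    rw [abs_mul, abs_of_pos hs0]
    calc s * |(a - b) - (a' - b')| ≤ g * (K / g) :=
          mul_le_mul hsg h1 (abs_nonneg _) hg0.le
      _ = K := by field_simp
  have h6 : |s * b - s * b'| ≤ K + 2 * B + 1 := by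
    have e1 : s * b - s * b' = s * (a - a') - s * ((a - b) - (a' - b')) := by ring
    rw [e1]
    exact (abs_sub _ _).trans (by linarith)
  refine (Pool.V0S.fl_near h6).trans (by linarith)

/-- **From the height to the digits of the coordinate.** -/
theorem tr_dn {a b a' b' K B s g : ℝ} {z z' : ℤ} (hg0 : 0 < g) (hs : g ≤ s)
    (hz : |(z : ℝ) - g * a| ≤ B) (hz' : |(z' : ℝ) - g * a'| ≤ B)
    (h1 : |(a - b) - (a' - b')| ≤ K / g) (h2 : ⌊s * b⌋ = ⌊s * b'⌋) :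
    |(z : ℝ) - z'| ≤ K + 2 * B + 2 := by
  have hs0 : 0 < s := hg0.trans_le hs
  have h3 := near_of_floor h2
  have h4 : |g * (b - b')| ≤ 1 := by
    rw [← mul_sub, abs_mul, abs_of_pos hs0] at h3
    rw [abs_mul, abs_of_pos hg0]
    exact (mul_le_mul_of_nonneg_right hs (abs_nonneg _)).trans h3
  have h5 : |g * ((a - b) - (a' - b'))| ≤ K := by
    rw [abs_mul, abs_of_pos hg0]
    calc g * |(a - b) - (a' - b')| ≤ g * (K / g) := mul_le_mul_of_nonneg_left h1 hg0.le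
      _ = K := by field_simp
  have e1 : g * a - g * a' = g * (b - b') + g * ((a - b) - (a' - b')) := by ring
  rw [abs_le] at h4 h5 hz hz' ⊢
  constructor <;> linarith [h4.1, h4.2, h5.1, h5.2, hz.1, hz.2, hz'.1, hz'.2]

end ent

/-- **The coordinates of the alive targets and their heights** on one law. `al`: the list of the
alive targets; `xc`: the coordinates; `z`: their integer parts in the units `2 ^ (-g i)`, up to `B`;
`q`: the length of the block; `Yb`: the side information. The digits `n` of the slope-one places and the far digits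
of the other targets have at most `θ` given the side information. -/
structure RowA {m J : ℕ} (F : Fam m J) (c : ℕ → Fin m) (k f w : ℕ) (p : F.Ω → ℝ)
    (H : LnT F → ℕ → MvPolynomial (Option (Fin m)) ℝ) (n P₁ P₂ : ℕ → ℝ) {C : ℕ} (al : Fin C → ℕ)
    (g : Fin C → ℕ) (q : ℕ) (z : F.Ω → Fin C → ℤ) (xc : F.Ω → Fin C → ℝ) {υ : Type}
    (Yb : F.Ω → υ) (B K θ : ℝ) : Prop where
  B0 : 0 ≤ B
  K0 : 0 ≤ K
  th0 : 0 ≤ θ
  alf : ∀ i, al i ≤ f
  lo : ∀ i, P₁ (al i) * J ≤ (g i : ℝ) - q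
  hi : ∀ i, (g i : ℝ) ≤ P₂ (al i) * J
  zx : ∀ ω, 0 < p ω → ∀ i, |(z ω i : ℝ) - 2 ^ g i * xc ω i| ≤ B
  dif : ∀ ω ω', 0 < p ω → 0 < p ω' → Yb ω = Yb ω' → ∀ i,
    |(xc ω i - ojet F (c (k + al i)) 0 (H (slam F w ω) (k + al i)) ω) -
      (xc ω' i - ojet F (c (k + al i)) 0 (H (slam F w ω') (k + al i)) ω')| ≤ K / 2 ^ g i
  yn : CH p (jh F c k w H n) Yb ≤ θ
  dead : ∀ l ≤ f, l ∉ Set.range al →
    CH p (Pool.V0F.th0 F c (k + l) w H (P₁ l)) (fun ω => (fun i => z ω i / 2 ^ q, Yb ω)) ≤ θ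

section

variable {m J : ℕ} {F : Fam m J} {c : ℕ → Fin m} {k f w : ℕ} {p : F.Ω → ℝ}
  {H : LnT F → ℕ → MvPolynomial (Option (Fin m)) ℝ} {n P₁ P₂ : ℕ → ℝ} {C : ℕ} {al : Fin C → ℕ}
  {g : Fin C → ℕ} {q : ℕ} {z : F.Ω → Fin C → ℤ} {xc : F.Ω → Fin C → ℝ} {υ : Type} {Yb : F.Ω → υ}
  {B K θ : ℝ}

/-- The heights given the upper digits of the coordinates. -/
theorem RowA.t1 (R : RowA F c k f w p H n P₁ P₂ al g q z xc Yb B K θ) (hp : IsLaw p) :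
    CH p (thT F c k f w H P₁) (fun ω => (fun i => z ω i / 2 ^ q, Yb ω)) ≤
      ((f : ℝ) + 1) * (θ + Real.log (2 * (K + 2 * B + 2) + 1)) := by
  have h0 := hp.nonneg
  have hB := R.B0
  have hK := R.K0
  have hlog : 0 ≤ Real.log (2 * (K + 2 * B + 2) + 1) := Real.log_nonneg (by linarith)
  refine (CH_pis h0 (thT F c k f w H P₁) _).trans ?_
  have h1 : ∀ v : Fin (f + 1), CH p (fun ω => thT F c k f w H P₁ ω v)
      (fun ω => (fun i => z ω i / 2 ^ q, Yb ω)) ≤ θ + Real.log (2 * (K + 2 * B + 2) + 1) := by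
    intro v
    by_cases hv : (v : ℕ) ∈ Set.range al
    · obtain ⟨i, hi⟩ := hv
      refine (CH_osc hp (D := K + 2 * B + 2) (by linarith) fun ω ω' hω hω' e => ?_).trans
        (by linarith [R.th0])
      simp only [Prod.mk.injEq] at e
      obtain ⟨e1, e2⟩ := e
      have h2 := R.dif ω ω' hω hω' e2 i
      rw [hi] at h2
      have h3 := R.lo i
      rw [hi] at h3
      have e3 : z ω i / (2 : ℤ) ^ q = z ω' i / (2 : ℤ) ^ q := congrFun e1 i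
      refine tr_up (q := q) (by positivity) (by positivity) ?_ R.B0 (R.zx ω hω i) (R.zx ω' hω' i)
        h2 e3
      have h4 : (2 : ℝ) ^ (P₁ v * J) ≤ (2 : ℝ) ^ ((g i : ℝ) - q) :=
        Real.rpow_le_rpow_of_exponent_le one_le_two h3
      have h5 : (2 : ℝ) ^ ((g i : ℝ) - q) * 2 ^ q = 2 ^ g i := by
        rw [← Real.rpow_natCast 2 q, ← Real.rpow_natCast 2 (g i), ← Real.rpow_add two_pos]
        congr 1
        ring
      calc (2 : ℝ) ^ (P₁ v * J) * 2 ^ q ≤ (2 : ℝ) ^ ((g i : ℝ) - q) * 2 ^ q :=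
            mul_le_mul_of_nonneg_right h4 (by positivity)
        _ = _ := h5
    · exact (R.dead v (by have := v.2; omega) hv).trans (by linarith)
  refine (Finset.sum_le_sum fun v _ => h1 v).trans (le_of_eq ?_)
  rw [Finset.sum_const, Finset.card_univ, Fintype.card_fin, nsmul_eq_mul]
  push_cast
  ring

/-- The coordinates given the heights. -/
theorem RowA.t2 (R : RowA F c k f w p H n P₁ P₂ al g q z xc Yb B K θ) (hp : IsLaw p) :
    CH p z (fun ω => (thT F c k f w H P₂ ω, Yb ω)) ≤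
      C * Real.log (2 * (K + 2 * B + 2) + 1) := by
  have h0 := hp.nonneg
  have hB := R.B0
  have hK := R.K0
  refine (CH_pis h0 z _).trans ?_
  have h1 : ∀ i : Fin C, CH p (fun ω => z ω i)
      (fun ω => (thT F c k f w H P₂ ω, Yb ω)) ≤ Real.log (2 * (K + 2 * B + 2) + 1) := by
    intro i
    refine CH_osc hp (D := K + 2 * B + 2) (by linarith) fun ω ω' hω hω' e => ?_
    simp only [Prod.mk.injEq] at e
    obtain ⟨e1, e2⟩ := e
    have h2 := R.dif ω ω' hω hω' e2 i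
    have h4 := congrFun e1 ⟨al i, by have := R.alf i; omega⟩
    refine tr_dn (by positivity) ?_ (R.zx ω hω i) (R.zx ω' hω' i) h2 h4
    rw [← Real.rpow_natCast]
    exact Real.rpow_le_rpow_of_exponent_le one_le_two (R.hi i)
  refine (Finset.sum_le_sum fun v _ => h1 v).trans (le_of_eq ?_)
  rw [Finset.sum_const, Finset.card_univ, Fintype.card_fin, nsmul_eq_mul]

end

/-- **(ii) The row of the coordinates of the tie** on all events of constant mass. Numbers as in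
`RwrStmt`; `P₁ v = P₂ v` for the targets `v` which are not alive is allowed. -/
theorem row_ldp (k f : ℕ) : ∃ Cr : ℝ, 1 ≤ Cr ∧
  ∀ {m : ℕ} {S : PCl m} {c : ℕ → Fin m} {sn : ℕ → ℝ → ℝ} {G : Set ℝ} {b o φ : ℝ},
    LadT S c k f sn G b o φ → (range (k + f)).image c = univ.erase (c (k + f)) →
    ∀ {w w₁ x x' : ℝ} {n P₁ P₂ : ℕ → ℝ} {h δ : ℝ}, w ∈ G → x ∈ G → x' ∈ G →
    b ≤ w → w ≤ x → x + Cr * φ ≤ x' → x' ≤ o → x' + Cr * φ ≤ 1 →
    (∀ i < k, sn i x' ≤ n i ∧ n i ≤ 1) → Tp k sn b φ n →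
    (∀ u ≤ f, 0 ≤ P₁ u ∧ P₁ u ≤ P₂ u ∧ P₂ u ≤ 1 ∧ P₂ u + Cr * φ ≤ sn (k + u) x ∧
      P₂ u + Cr * φ ≤ sn (k + u) w + (x' - w)) →
    (∀ u < f, sn (k + u) x ≤ P₂ u + 2 * Cr * φ) →
    (∀ u ≤ f, ∀ l < k + u, P₂ u + Cr * φ ≤ sn (k + u) w + (1 - sn l w)) →
    (∃ rk E₁ : ℝ, rk < 1 ∧ 0 ≤ E₁ ∧
      AttG S ((range (k + f)).image c) (c (k + f)) w (sn (k + f) w) rk E₁ ∧ P₂ f + E₁ ≤ 1) →
    RawN S (univ.erase (c (k + f))) (c (k + f)) (P₁ f) (P₂ f - P₁ f) h δ → w ≤ w₁ → w₁ ≤ 1 →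
    (∃ η : ℝ, RNum S (fun J F => ptr F J) (vg w₁) η) → ∀ π₀ : ℝ, 0 < π₀ → ∀ ε : ℝ, 0 < ε →
    ∀ (D : ℕ) (Ec : ℝ), Bas S (fun J F A =>
      ∀ Hb H : LnT F → ℕ → MvPolynomial (Option (Fin m)) ℝ, LDP F c k f D b w φ Ec sn A Hb H →
      ∀ {C : ℕ} {al : Fin C → ℕ} {g : Fin C → ℕ} {q : ℕ} {z : F.Ω → Fin C → ℤ}
        {xc : F.Ω → Fin C → ℝ} {υ : Type} {Yb : F.Ω → υ} {B K θ : ℝ},
      RowA F c k f ⌊w * J⌋₊ (Pool.Agent.H49.Ent.cond F.p A True) H n P₁ P₂ al g q z xc Yb B K θ →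
      Det (Pool.Agent.H49.Ent.cond F.p A True) Yb (fun ω => (cR F A w₁ ω, F.W ω)) →
      ∀ r : ℝ, (((1 - h) * (P₂ f - P₁ f) + ∑ u ∈ range f, (P₂ u - P₁ u)) * Real.log 2 + δ +
          8 * ((f : ℝ) + 1) * Cr * φ + ε) * J +
          (((f : ℝ) + 2) * θ + ((f : ℝ) + 1 + C) * Real.log (2 * (K + 2 * B + 2) + 1)) / π₀ ≤ r →
      RowT (Pool.Agent.H49.Ent.cond F.p A True) z Yb q r π₀) := by
  obtain ⟨Cr, hCr1, H0⟩ := t_rwr k f
  refine ⟨Cr, hCr1, ?_⟩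
  intro m S c sn G b o φ L hI w w₁ x x' n P₁ P₂ h δ hw hx hx' hbw hwx hxx hxo hx1 hn tp hP hPn hPl
    hatt hraw hw₁ hw₁1 hη π₀ hπ ε hε D Ec
  obtain ⟨rk, Ee, hrk, hEe, hat, hEs⟩ := hatt
  obtain ⟨η, hη⟩ := hη
  have hφ0 := L.φ0
  have hb0 := L.b0
  have hw0 : 0 ≤ w := hb0.trans hbw
  have hw1 : w ≤ 1 := hw₁.trans hw₁1
  obtain ⟨κ₁, hκ₁, e₀, he₀, HR⟩ := H0 L hI (w := w) (w₁ := w₁) (x := x) (x' := x')
    (p := fun l => sn l b - φ) (n := n) (pr := fun v => sn (k + v) w - φ)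
    (P₁ := P₁) (P₂ := P₂) (h := h) (δ := δ) (E₁ := Ee) hw hx hx' hbw hwx hxx hxo hx1
    (fun i _ => le_rfl) (fun _ _ => le_rfl) hn tp hP hPn hPl
    ⟨rk, hrk, hEe, hat, hEs⟩ hraw hw₁ hw₁1 hη π₀ hπ ε hε
  obtain ⟨M₁, J₁, hM₁⟩ := ld_jh m D k n (b := b) (E := Ec) hb0 (hbw.trans hw1)
  obtain ⟨M₂, J₂, hM₂⟩ := ldp_tg m D k f P₁ (w := w) (E := Ec) hw0 hw1
  obtain ⟨M₃, J₃, hM₃⟩ := ldp_tg m D k f P₂ (w := w) (E := Ec) hw0 hw1
  obtain ⟨M, hM⟩ : ∃ M : ℕ, M = M₁ + M₂ + M₃ := ⟨_, rfl⟩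
  refine Bas.mono (J₁ + J₂ + J₃) (((HR M).and (hη.at' κ₁ hκ₁)).and (pos_bas L.pos)) ?_
  rintro J hJ F A ⟨⟨H1, hq⟩, hA⟩ Hb H LDh C al g q z xc υ Yb B' K θ R hY r hr E hE hE0
  have hJ0 : (0 : ℝ) ≤ J := Nat.cast_nonneg J
  have hcR : Cl2 (ptr F J) (vg w₁ J F) A (cR F A w₁) := by
    refine ⟨?_, ?_⟩
    · choose φ hφ using fun D : {D : F.Ω → Prop // Cl2 (ptr F J) (vg w₁ J F) A D} => D.2.1
      exact ⟨fun x D => φ D x, fun ω hω => funext fun D => hφ D ω hω⟩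
    · choose φ hφ using fun D : {D : F.Ω → Prop // Cl2 (ptr F J) (vg w₁ J F) A D} => D.2.2
      exact ⟨fun x D => φ D x, fun ω hω => funext fun D => hφ D ω hω⟩
  -- the event in the family
  obtain ⟨B, hB⟩ : ∃ B : F.Ω → Prop, B = fun ω => A ω ∧ E ω := ⟨_, rfl⟩
  have hBs : Sub B A := fun ω hω => by
    rw [hB] at hω
    exact hω.1
  have e1 : Pe (Pool.Agent.H49.Ent.cond F.p A True) E = Pe F.p B / Pe F.p A := by
    rw [Pe_cond, hB]
  have hPB : π₀ * Pe F.p A ≤ Pe F.p B := by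
    rw [e1, le_div_iff₀ hA] at hE
    exact hE
  have hPB0 : 0 < Pe F.p B := lt_of_lt_of_le (mul_pos hπ hA) hPB
  have e2 : Pool.Agent.H49.Ent.cond (Pool.Agent.H49.Ent.cond F.p A True) E True =
      Pool.Agent.H49.Ent.cond F.p B True := by
    rw [hB]
    exact Piece.cond_inter hA.ne'
  have hcl := isLaw_cond F.isLaw hA
  have hclB := isLaw_cond F.isLaw hPB0
  have H2 := H1 _ (cR F A w₁) hcR (fun v => cR_cell hq v) (jh F c k ⌊w * J⌋₊ H n)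
    (thT F c k f ⌊w * J⌋₊ H P₁) (thT F c k f ⌊w * J⌋₊ H P₂)
    (hM₁ M (by omega) J (by omega) LDh.toLD e₀ he₀.le)
    (hM₂ M (by omega) J (by omega) LDh e₀ he₀.le) (hM₃ M (by omega) J (by omega) LDh e₀ he₀.le)
    B hBs hPB
  have t1 := (Pool.V0S.CH_part hA hBs hπ hPB (thT F c k f ⌊w * J⌋₊ H P₁)
    (fun ω => (fun i => z ω i / 2 ^ q, Yb ω))).trans
    (div_le_div_of_nonneg_right (R.t1 hcl) hπ.le)
  have t2 := (Pool.V0S.CH_part hA hBs hπ hPB z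
    (fun ω => (thT F c k f ⌊w * J⌋₊ H P₂ ω, Yb ω))).trans
    (div_le_div_of_nonneg_right (R.t2 hcl) hπ.le)
  have t0 := (Pool.V0S.CH_part hA hBs hπ hPB (jh F c k ⌊w * J⌋₊ H n) Yb).trans
    (div_le_div_of_nonneg_right R.yn hπ.le)
  have hY' : Det (Pool.Agent.H49.Ent.cond F.p B True) Yb
      (fun ω => (cR F A w₁ ω, F.W ω)) := by
    have h1 : ∀ ω, 0 < Pool.Agent.H49.Ent.cond F.p B True ω →
        0 < Pool.Agent.H49.Ent.cond F.p A True ω := fun ω hω => by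
      obtain ⟨h2, h3⟩ := (cond_pos_iff F.isLaw.nonneg B True ω).1 hω
      exact (cond_pos_iff F.isLaw.nonneg A True ω).2 ⟨h2, eq_true (hBs ω (of_eq_true h3))⟩
    exact fun ω ω' hω hω' e => hY ω ω' (h1 ω hω) (h1 ω' hω') e
  have key := ent_tr hclB.nonneg (zN := fun ω i => z ω i / 2 ^ q) (zF := z) (Y := Yb)
    (u₁ := thT F c k f ⌊w * J⌋₊ H P₁) (u₂ := thT F c k f ⌊w * J⌋₊ H P₂) hY' t0 t1 t2 H2
  rw [e2]
  refine key.trans (le_trans (le_of_eq ?_) hr)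
  ring

/-- A closed function of an earlier window is determined by the canonical record. -/
theorem cR_cls {m J : ℕ} {F : Fam m J} {A : F.Ω → Prop} {b w₁ : ℝ} {V : Type} {z : PtT F → V}
    {z' : LnT F → V} (hcl : ∀ ω, A ω → z (ptr F J ω) = z' (slam F ⌊b * J⌋₊ ω)) (hb : b ≤ w₁)
    (hw : w₁ ≤ 1) {ω ω' : F.Ω} (h : cR F A w₁ ω = cR F A w₁ ω') :
    z (ptr F J ω) = z (ptr F J ω') := by
  obtain ⟨χ, hχ⟩ := vg_mono hb hw J F
  have hz : Cl2 (ptr F J) (vg w₁ J F) A (fun ω => z (ptr F J ω)) :=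
    ⟨⟨z, fun ω _ => rfl⟩, ⟨fun x => z' (χ x), fun ω hω => by
      show z (ptr F J ω) = z' (χ (vg w₁ J F ω))
      rw [hcl ω hω, ← hχ ω]
      rfl⟩⟩
  have h1 := congrFun h ⟨fun ν => z (ptr F J ν) = z (ptr F J ω), hz.comp fun v => v = z (ptr F J ω)⟩
  have h2 : (z (ptr F J ω) = z (ptr F J ω)) = (z (ptr F J ω') = z (ptr F J ω)) := h1
  exact (h2.mp rfl).symm

/-- **The digits of the height of one slope-one place** from raw digits of its position. -/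
theorem jh_one {m J : ℕ} {F : Fam m J} {c : ℕ → Fin m} {f D : ℕ} {b w φ E : ℝ}
    {sn : ℕ → ℝ → ℝ} {A : F.Ω → Prop} {Hb H : LnT F → ℕ → MvPolynomial (Option (Fin m)) ℝ}
    (L : LDP F c 1 f D b w φ E sn A Hb H) (hA : 0 < Pe F.p A) {w₁ : ℝ} (hb : b ≤ w₁) (hw : w₁ ≤ 1)
    {n : ℕ → ℝ} {υ : Type} {Yb : F.Ω → υ} {K : ℝ} (hK : 0 ≤ K)
    (hY : Det (Pool.Agent.H49.Ent.cond F.p A True) Yb (fun ω => (cR F A w₁ ω, F.W ω)))
    (hy : ∀ ω ω', A ω → A ω' → Yb ω = Yb ω' →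
      |(2 : ℝ) ^ (n 0 * J) * F.x ω (c 0) - (2 : ℝ) ^ (n 0 * J) * F.x ω' (c 0)| ≤ K) :
    CH (Pool.Agent.H49.Ent.cond F.p A True) (jh F c 1 ⌊w * J⌋₊ H n) Yb ≤
      Real.log (2 * (K + 1) + 1) := by
  have hcl := isLaw_cond F.isLaw hA
  obtain ⟨V, z, z', G, hl, hG⟩ := L.lb 0 one_pos
  have h1 : CH (Pool.Agent.H49.Ent.cond F.p A True) (jh F c 1 ⌊w * J⌋₊ H n) Yb ≤
      CH (Pool.Agent.H49.Ent.cond F.p A True) (fun ω => ⌊(2 : ℝ) ^ (n 0 * J) *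
        ojet F (c 0) 0 (H (slam F ⌊w * J⌋₊ ω) 0) ω⌋) Yb :=
    CH_mono_left hcl.nonneg fun ω ω' _ _ e => by
      funext l j'
      unfold jh
      by_cases h : l < 1 ∧ j' = 0
      · rw [if_pos h, if_pos h]
        obtain rfl : l = 0 := by omega
        exact (Prod.ext_iff.1 e).1
      · rw [if_neg h, if_neg h]
  refine h1.trans (CH_osc hcl (D := K + 1) (by linarith) fun ω ω' hω hω' e => ?_)
  have hAω : A ω := of_cond_pos hω
  have hAω' : A ω' := of_cond_pos hω'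
  have h2 := hY ω ω' hω hω' e
  simp only [Prod.mk.injEq] at h2
  have h3 := cR_cls hl.cls hb hw h2.1
  have h4 : z' (slam F ⌊b * J⌋₊ ω) = z' (slam F ⌊b * J⌋₊ ω') := by
    rw [← hl.cls ω hAω, ← hl.cls ω' hAω', h3]
  have h5 : F.T ω = F.T ω' := (Prod.ext_iff.1 h2.2).1
  have h6 : eval (bt F ω) (Hb (slam F ⌊b * J⌋₊ ω) 0) = eval (bt F ω') (Hb (slam F ⌊b * J⌋₊ ω') 0) := by
    rw [← hG, ← hG, h4]
    refine hl.dep _ _ _ ?_ fun i hi => ?_
    · show F.t ω = F.t ω'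
      unfold Fam.t
      rw [h5]
    · simp at hi
  have h7 := hy ω ω' hAω hAω' e
  refine Pool.V0S.fl_near ?_
  rw [L.hb ω 0 one_pos, L.hb ω' 0 one_pos, ojet_zero, ojet_zero, ← h6]
  have e1 : (2 : ℝ) ^ (n 0 * J) * (F.x ω (c 0) - eval (bt F ω) (Hb (slam F ⌊b * J⌋₊ ω) 0)) -
      (2 : ℝ) ^ (n 0 * J) * (F.x ω' (c 0) - eval (bt F ω) (Hb (slam F ⌊b * J⌋₊ ω) 0)) =
      (2 : ℝ) ^ (n 0 * J) * F.x ω (c 0) - (2 : ℝ) ^ (n 0 * J) * F.x ω' (c 0) := by ring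
  rw [e1]
  exact h7

end Pool.T4R
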