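import Pool.Agent.H55.T4.Prt

/-!
# The rows of the two systems

`row_cx`: the row of the coordinates of one system, on all events with a frame. `pce_R`: the rows
(`PhR`). `st_R`: the piece `StRw`, for every property `Lb`.
-/

set_option autoImplicit false

namespace Pool.T4R55

open Finset Real MvPolynomial
open Pool.Agent.H49.Ent Pool.Agent.H32.Dense
open Pool.STK hiding pr2
open Pool.KA Pool.KSAT Pool.K2S Pool.PB Pool.S6C
open Pool.GEN Pool.CHT Pool.CHX Pool.ISO Pool.LA91 Pool.AVG71 Pool.AVG5 Pool.D2F2 Pool.AVG57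
open Pool.RCD Pool.AVG96 Pool.OWN68 Pool.V0F Pool.V0Q Pool.V0T
open Pool.T4H (RowT)
open Pool.T4R (nP1 nP2 RowA row_numP near_of_floor CH_osc)
open Pool.T4N (Frm FrmP fX)
open Pool.T4X

variable {J : ℕ}

/-! ### Numbers -/

/-- The size of the row. -/
theorem num_row {h Bc mm ρ J u μ φ E Cr η K₁ : ℝ} (h0 : 0 ≤ h) (h1 : h ≤ 1) (hB : 0 ≤ Bc)
    (hm : 1 ≤ mm) (hρ : 0 < ρ) (hJ : 0 ≤ J) (hu0 : 0 ≤ u) (hu : mm * ρ * J ≤ u + 1) (hE : 0 ≤ E)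
    (hφ : φ ≤ E) (hφ0 : 0 ≤ φ) (hCr : 1 ≤ Cr) (hμ : 200 * Cr * E ≤ μ) (hμρ : 32 * μ ≤ η * ρ) (hη : 0 < η)
    (hJ1 : η / 2 + 3 * Bc + K₁ ≤ η * ρ / 4 * J) :
    (((1 - h) + 2) * ((Bc * (mm * ρ) + (μ + 2 * φ)) + Cr * (4 * E)) * Real.log 2 + 4 * E +
      8 * ((2 : ℝ) + 1) * Cr * (4 * E) + η * ρ / 16) * J + K₁ ≤
      (3 - h) * (Bc * u) * Real.log 2 + η / 2 * u := by
  have hl0 : 0 < Real.log 2 := Real.log_pos one_lt_two
  have hl1 : Real.log 2 ≤ 1 := by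
    have := Real.log_two_lt_d9
    linarith
  have hCE : E ≤ Cr * E := le_mul_of_one_le_left hE hCr
  have hμ0 : 0 ≤ μ := le_trans (by positivity) hμ
  -- the main term
  have a1 : (3 - h) * Bc * Real.log 2 * (mm * ρ * J) ≤ (3 - h) * Bc * Real.log 2 * (u + 1) :=
    mul_le_mul_of_nonneg_left hu (mul_nonneg (mul_nonneg (by linarith) hB) hl0.le)
  have a2 : (3 - h) * Bc * Real.log 2 ≤ 3 * Bc := by
    have b1 : (3 - h) * Bc ≤ 3 * Bc := mul_le_mul_of_nonneg_right (by linarith) hB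
    have b2 : (3 - h) * Bc * Real.log 2 ≤ (3 - h) * Bc * 1 :=
      mul_le_mul_of_nonneg_left hl1 (mul_nonneg (by linarith) hB)
    linarith
  -- the errors
  have a3 : (3 - h) * ((μ + 2 * φ) + Cr * (4 * E)) * Real.log 2 ≤
      3 * ((μ + 2 * φ) + Cr * (4 * E)) := by
    have c0 : 0 ≤ (μ + 2 * φ) + Cr * (4 * E) := by positivity
    have c1 : (3 - h) * ((μ + 2 * φ) + Cr * (4 * E)) * Real.log 2 ≤
        (3 - h) * ((μ + 2 * φ) + Cr * (4 * E)) * 1 :=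
      mul_le_mul_of_nonneg_left hl1 (mul_nonneg (by linarith) c0)
    have c2 : (3 - h) * ((μ + 2 * φ) + Cr * (4 * E)) ≤ 3 * ((μ + 2 * φ) + Cr * (4 * E)) :=
      mul_le_mul_of_nonneg_right (by linarith) c0
    linarith
  have a4 : (3 - h) * ((μ + 2 * φ) + Cr * (4 * E)) * Real.log 2 + 4 * E +
      8 * ((2 : ℝ) + 1) * Cr * (4 * E) ≤ η * ρ / 8 := by
    have c1 : 200 * Cr * E = 200 * (Cr * E) := by ring
    have c2 : 8 * ((2 : ℝ) + 1) * Cr * (4 * E) = 96 * (Cr * E) := by ring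
    have c3 : Cr * (4 * E) = 4 * (Cr * E) := by ring
    rw [c2]
    rw [c3] at a3
    rw [c3]
    rw [c1] at hμ
    linarith
  have a5 := mul_le_mul_of_nonneg_right a4 hJ
  have a6 : ρ * J ≤ u + 1 := by
    have b1 : 1 * (ρ * J) ≤ mm * (ρ * J) := mul_le_mul_of_nonneg_right hm (by positivity)
    linarith
  have a7 : η * (ρ * J) ≤ η * (u + 1) := mul_le_mul_of_nonneg_left a6 hη.le
  have e1 : (((1 - h) + 2) * ((Bc * (mm * ρ) + (μ + 2 * φ)) + Cr * (4 * E)) * Real.log 2 + 4 * E +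
      8 * ((2 : ℝ) + 1) * Cr * (4 * E) + η * ρ / 16) * J =
      (3 - h) * Bc * Real.log 2 * (mm * ρ * J) + ((3 - h) * ((μ + 2 * φ) + Cr * (4 * E)) *
        Real.log 2 + 4 * E + 8 * ((2 : ℝ) + 1) * Cr * (4 * E)) * J + η * (ρ * J) / 16 := by ring
  have e2 : η * ρ / 8 * J = η * (ρ * J) / 8 := by ring
  have e3 : η * ρ / 4 * J = η * (ρ * J) / 4 := by ring
  have e4 : (3 - h) * (Bc * u) * Real.log 2 = (3 - h) * Bc * Real.log 2 * u := by ring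
  rw [e2] at a5
  rw [e3] at hJ1
  rw [e1, e4]
  have a8 : 0 ≤ η * u := mul_nonneg hη.le hu0
  linarith

/-- The loss of the part. -/
theorem num_loss {δ ϖ Bc u η ρ J : ℝ} (hδ : 0 < δ) (hδϖ : 2 * δ ≤ ϖ) (hB : 0 ≤ Bc)
    (hu0 : 0 ≤ u) (hδB : δ / ϖ * (3 * Bc) ≤ η / 8) (hη : 0 < η) (hu : ρ * J ≤ u + 1)
    (hJ2 : 4 + 3 * η / 8 ≤ 3 * η / 8 * ρ * J) :
    Real.log 2 + δ / ϖ * ((3 : ℕ) * ((Bc * u + 2) * Real.log 2)) ≤ η / 2 * u := by
  have hl0 : 0 < Real.log 2 := Real.log_pos one_lt_two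
  have hl1 : Real.log 2 ≤ 1 := by
    have := Real.log_two_lt_d9
    linarith
  have hϖ : 0 < ϖ := by linarith
  have hr : δ / ϖ ≤ 1 / 2 := by
    rw [div_le_iff₀ hϖ]
    linarith
  have hr0 : 0 < δ / ϖ := by positivity
  have b1 : δ / ϖ * ((3 : ℕ) * ((Bc * u + 2) * Real.log 2)) ≤
      δ / ϖ * ((3 : ℕ) * ((Bc * u + 2) * 1)) := by
    refine mul_le_mul_of_nonneg_left (mul_le_mul_of_nonneg_left (mul_le_mul_of_nonneg_left hl1 ?_)
      (by positivity)) hr0.le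
    positivity
  have b2 : δ / ϖ * ((3 : ℕ) * ((Bc * u + 2) * 1)) = δ / ϖ * (3 * Bc) * u + δ / ϖ * 6 := by
    push_cast
    ring
  have b3 := mul_le_mul_of_nonneg_right hδB hu0
  have b4 : 3 * η / 8 * ρ * J ≤ 3 * η / 8 * (u + 1) := by
    have := mul_le_mul_of_nonneg_left hu (show 0 ≤ 3 * η / 8 by positivity)
    linarith
  linarith

/-- Enough shifts. -/
theorem shifts {ϖ η Bc : ℝ} (hϖ : 0 < ϖ) (hη : 0 < η) (hB : 0 ≤ Bc) : ∃ N : ℕ, 2 ≤ N ∧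
    2 * (1 / (N : ℝ)) ≤ ϖ ∧ 1 / (N : ℝ) / ϖ * (3 * Bc) ≤ η / 8 := by
  obtain ⟨N, hN⟩ := exists_nat_ge (2 + 2 / ϖ + 24 * Bc / (η * ϖ))
  have h1 : 0 ≤ 2 / ϖ := by positivity
  have h2 : 0 ≤ 24 * Bc / (η * ϖ) := by positivity
  have hN2 : (2 : ℝ) ≤ N := by linarith
  have hN0 : (0 : ℝ) < N := by linarith
  refine ⟨N, by exact_mod_cast hN2, ?_, ?_⟩
  · have h3 : 2 / ϖ ≤ N := by linarith
    rw [div_le_iff₀ hϖ] at h3
    rw [mul_one_div, div_le_iff₀ hN0]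
    linarith
  · have h3 : 24 * Bc / (η * ϖ) ≤ N := by linarith
    rw [div_le_iff₀ (by positivity)] at h3
    rw [div_div, div_mul_eq_mul_div, one_mul, div_le_iff₀ (by positivity)]
    linarith

/-- The far digits of a position. -/
theorem pos_near {X : Cx} {T : ℝ} {F : Fam 4 J} {k : ℕ} {ω ω' : F.Ω}
    (h : ⌊lY X T F k ω⌋ = ⌊lY X T F k ω'⌋) :
    |F.x ω (X.c 0) - F.x ω' (X.c 0)| ≤ 1 / 2 ^ (lP X T J - 6) := by
  have h1 := near_of_floor h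
  have e1 : lY X T F k ω - lY X T F k ω' =
      (2 : ℝ) ^ (lP X T J - 6) * (F.x ω (X.c 0) - F.x ω' (X.c 0)) := by
    unfold lY
    ring
  rw [e1, abs_mul, abs_of_pos (by positivity)] at h1
  rw [le_div_iff₀ (by positivity)]
  linarith

/-- The windows of a class. -/
structure Wnd (X : Cx) (s T Λ E Cr : ℝ) (x x' : ℝ) : Prop where
  E0 : 0 < E
  φ0 : 0 < X.φ
  φE : X.φ ≤ E
  Eq : 240 * E ≤ X.q
  b0 : X.q ≤ X.b
  bt : X.b ≤ X.t
  t1 : X.t ≤ 1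
  xo : x' ≤ X.o
  xG : x' ∈ X.G
  sb : X.sn 0 X.b ≤ X.b + 3 * E
  st : X.t - E ≤ X.sn 0 X.t
  sx : X.sn 0 x' ≤ X.t + (s + 2) * X.q
  n1 : s * (x - X.t) + 3 * Cr * (4 * E) ≤ x' - X.t

theorem wnd {s hr T N₀ Λ e κ₀ Cr : ℝ} {L : ℕ} {X : Cx} (hX : X.Ok s hr T N₀ Λ e κ₀ L) (hs : 1 < s)
    (hCr : 1 ≤ Cr) (he : 0 < e) (he1 : 240 * e ≤ 1) (he2 : (12 * Cr + 4) * e ≤ 1)
    (hΛ : s + 4 ≤ Λ) {x : ℝ} (hx : X.t ≤ x) (hx' : x ≤ X.t + X.q) :
    ∃ x' : ℝ, Wnd X s T Λ (e * X.q) Cr x x' := by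
  have hq := hX.box.u0
  have hE : 0 < e * X.q := mul_pos he hq
  have hφ0 := hX.box.lad.φ0
  have hφe := hX.φe
  have hbw := hX.box.bw
  have hwo := hX.box.wo
  have ho1 := hX.box.o1
  have hb0 := hX.box.b0
  have h1 : 1 * X.q ≤ Λ * X.q := mul_le_mul_of_nonneg_right (by linarith) hq.le
  have h2 : (s + 4) * X.q ≤ Λ * X.q := mul_le_mul_of_nonneg_right hΛ hq.le
  have h3 : 240 * (e * X.q) ≤ X.q := by
    have := mul_le_mul_of_nonneg_right he1 hq.le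
    linarith
  have h4 : 12 * Cr * (e * X.q) + 4 * (e * X.q) ≤ X.q := by
    have := mul_le_mul_of_nonneg_right he2 hq.le
    linarith
  have h5 : 0 ≤ s * (x - X.t) := mul_nonneg (by linarith) (by linarith)
  have h6 : s * (x - X.t) ≤ s * X.q := mul_le_mul_of_nonneg_left (by linarith) (by linarith)
  have h7 : 0 ≤ Cr * (e * X.q) := by positivity
  have hbt : X.b ≤ X.t := by linarith
  have hto : X.t ≤ X.o := by linarith
  obtain ⟨x', hx'G, hx'1⟩ := hX.box.lad.gap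
    (X.t + s * (x - X.t) + 12 * (Cr * (e * X.q)) + e * X.q) (by linarith) (by linarith)
  rw [abs_le] at hx'1
  have g1 : X.t ≤ x' := by linarith [hx'1.1]
  have g2 : x' ≤ X.t + (s + 1) * X.q := by linarith [hx'1.2]
  have g3 : x' ≤ X.t + Λ * X.q := by linarith
  have f1 := abs_le.1 (hX.box.lad.fl 0 (by norm_num) X.b hX.box.lad.bG le_rfl hX.box.lad.bo)
  have f2 := abs_le.1 (hX.box.lad.fl 0 (by norm_num) X.t hX.box.wG hbt hto)
  have f3 := abs_le.1 (hX.s0 X.t hX.box.wG le_rfl (by linarith))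
  have f4 := abs_le.1 (hX.s0 x' hx'G g1 g3)
  exact ⟨x', hE, hφ0, hφe, h3, by linarith, hbt, by linarith, by linarith, hx'G,
    by linarith [f1.2, f2.1, f3.2], by linarith [f3.1], by linarith [f4.2],
    by linarith [hx'1.1]⟩

/-- The digits of one level. -/
structure Dgl (X : Cx) (T E : ℝ) (x' : ℝ) (N J : ℕ) : Prop where
  J2 : 2 ≤ J
  wl : (2 : ℝ) ^ ⌊(X.sn 0 X.b - 4 * E) * J⌋₊ * (2 * N) < 2 ^ ⌊X.b * J⌋₊
  l6 : 6 ≤ lP X T J
  fr : (2 : ℝ) ^ ⌊(X.sn 0 X.b - 4 * E) * J⌋₊ * (2 * N) < 2 ^ (lP X T J - 6)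
  nr : (2 : ℝ) ^ (X.sn 0 x' * J) ≤ 2 ^ (lP X T J - 6)

theorem dgl {X : Cx} {s T Λ E Cr x x' : ℝ} (W : Wnd X s T Λ E Cr x x') (hs : 1 < s)
    (hT : s + 4 ≤ T) (N : ℕ) : ∃ J₀ : ℕ, ∀ J : ℕ, J₀ ≤ J → Dgl X T E x' N J := by
  obtain ⟨n₁, hn₁⟩ : ∃ n₁ : ℕ, (2 * N : ℝ) < 2 ^ n₁ := pow_unbounded_of_one_lt _ one_lt_two
  have hE := W.E0
  have hEq := W.Eq
  have hq : 0 < X.q := by linarith
  obtain ⟨J₁, hJ₁⟩ := Pool.CHT.big ((n₁ : ℝ) + 8) hE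
  refine ⟨max J₁ 2, fun J hJ => ?_⟩
  have h1 := hJ₁ J ((le_max_left _ _).trans hJ)
  have hJ0 : (0 : ℝ) ≤ J := Nat.cast_nonneg J
  have h2 : E * J ≤ X.q * J := mul_le_mul_of_nonneg_right (by linarith) hJ0
  have hbE : 0 ≤ X.b - E := by
    have := W.b0
    linarith
  -- the digits of the constant label
  have p1 : (⌊(X.sn 0 X.b - 4 * E) * J⌋₊ : ℝ) ≤ (X.b - E) * J := by
    have a1 : ⌊(X.sn 0 X.b - 4 * E) * J⌋₊ ≤ ⌊(X.b - E) * J⌋₊ :=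
      Nat.floor_le_floor (mul_le_mul_of_nonneg_right (by linarith [W.sb]) hJ0)
    have a2 : (⌊(X.b - E) * (J : ℝ)⌋₊ : ℝ) ≤ (X.b - E) * J := Nat.floor_le (by positivity)
    exact le_trans (by exact_mod_cast a1) a2
  have p2 : X.b * J < ⌊X.b * J⌋₊ + 1 := Nat.lt_floor_add_one _
  have key : ∀ M : ℕ, ⌊(X.sn 0 X.b - 4 * E) * J⌋₊ + n₁ ≤ M →
      (2 : ℝ) ^ ⌊(X.sn 0 X.b - 4 * E) * J⌋₊ * (2 * N) < 2 ^ M := by
    intro M hM
    have a1 : (2 : ℝ) ^ (⌊(X.sn 0 X.b - 4 * E) * J⌋₊ + n₁) ≤ 2 ^ M :=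
      pow_le_pow_right₀ one_le_two hM
    rw [pow_add] at a1
    exact (mul_lt_mul_of_pos_left hn₁ (by positivity)).trans_le a1
  have n0 : (0 : ℝ) ≤ n₁ := Nat.cast_nonneg n₁
  -- the far digits
  have q1 : (X.sn 0 X.t + T * X.q) * J < lP X T J + 1 := Nat.lt_floor_add_one _
  have q2 : (s + 4) * X.q ≤ T * X.q := mul_le_mul_of_nonneg_right hT hq.le
  have q3 : (X.t + (s + 3) * X.q) * J ≤ (X.sn 0 X.t + T * X.q) * J := by
    refine mul_le_mul_of_nonneg_right ?_ hJ0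
    have := W.st
    linarith
  have hb0 := W.b0
  have hbt := W.bt
  have q4 : X.q * J ≤ (X.t + (s + 3) * X.q) * J := by
    refine mul_le_mul_of_nonneg_right ?_ hJ0
    have := mul_pos (show 0 < s + 2 by linarith) hq
    linarith
  have l6 : 6 ≤ lP X T J := by
    have a1 : (6 : ℝ) ≤ lP X T J := by linarith
    exact_mod_cast a1
  have e6 : ((lP X T J - 6 : ℕ) : ℝ) = (lP X T J : ℝ) - 6 := by
    rw [Nat.cast_sub l6]
    norm_num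
  refine ⟨(le_max_right _ _).trans hJ, key _ ?_, l6, key _ ?_, ?_⟩
  · have a1 : ((⌊(X.sn 0 X.b - 4 * E) * J⌋₊ + n₁ : ℕ) : ℝ) ≤ (⌊X.b * (J : ℝ)⌋₊ : ℝ) := by
      push_cast
      linarith
    exact_mod_cast a1
  · have a1 : ((⌊(X.sn 0 X.b - 4 * E) * J⌋₊ + n₁ : ℕ) : ℝ) ≤ ((lP X T J - 6 : ℕ) : ℝ) := by
      rw [e6]
      push_cast
      have a2 : (X.b - E) * J ≤ X.t * J - E * J := by
        have := mul_le_mul_of_nonneg_right hbt hJ0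
        linarith
      have a3 : (X.t + (s + 3) * X.q) * J = X.t * J + (s + 3) * (X.q * J) := by ring
      have a4 : 1 * (X.q * J) ≤ (s + 3) * (X.q * J) :=
        mul_le_mul_of_nonneg_right (by linarith) (by positivity)
      linarith
    exact_mod_cast a1
  · rw [← Real.rpow_natCast]
    refine Real.rpow_le_rpow_of_exponent_le one_le_two ?_
    rw [e6]
    have a1 : X.sn 0 x' * J ≤ (X.t + (s + 2) * X.q) * J := mul_le_mul_of_nonneg_right W.sx hJ0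
    have a2 : (X.t + (s + 3) * X.q) * J = (X.t + (s + 2) * X.q) * J + X.q * J := by ring
    linarith

/-- **Larger errors.** -/
theorem ladT_mono {m : ℕ} {S : PCl m} {c : ℕ → Fin m} {k f : ℕ} {sn : ℕ → ℝ → ℝ} {G : Set ℝ}
    {b o φ : ℝ} (L : LadT S c k f sn G b o φ) {φ₁ : ℝ} (h : φ ≤ φ₁) :
    LadT S c k f sn G b o φ₁ where
  tm := L.tm
  pos := L.pos
  inj := L.inj
  ch := L.ch
  att := L.att
  bG := L.bG
  oG := L.oG
  b0 := L.b0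
  bo := L.bo
  o1 := L.o1
  φ0 := L.φ0.trans_le h
  fm := by
    obtain ⟨φ', h1, h2, h3, h4⟩ := L.fm
    exact ⟨φ', h1, h2.trans h, h3, fun l a b v hv v' hv' h5 h6 h7 h8 =>
      (h4 l a b v hv v' hv' h5 h6 h7 h8).trans (by linarith)⟩
  fl := fun i hi v hv h3 h4 => (L.fl i hi v hv h3 h4).trans h
  st := fun l a b v hv v' hv' h3 h4 h5 => (L.st l a b v hv v' hv' h3 h4 h5).trans (by linarith)
  eq := fun l a b v hv v' hv' h3 h4 h5 => (L.eq l a b v hv v' hv' h3 h4 h5).trans h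
  et := fun v hv v' hv' h3 h4 h5 => (L.et v hv v' hv' h3 h4 h5).trans h

theorem RawN.mono' {m : ℕ} {S : PCl m} {I : Finset (Fin m)} {κ : Fin m} {p q h δ δ' : ℝ}
    (H : RawN S I κ p q h δ) (hδ : δ ≤ δ') : RawN S I κ p q h δ' := by
  intro x hx hxq
  refine Bas.mono 0 (H x hx hxq) ?_
  intro J _ F A h1
  refine h1.trans (mul_le_mul_of_nonneg_right ?_ (Nat.cast_nonneg J))
  linarith

theorem row_le {Ω υ : Type} [Fintype Ω] {n : ℕ} {p : Ω → ℝ} {z : Ω → Fin n → ℤ} {Yb : Ω → υ}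
    {q : ℕ} {r r' c₀ : ℝ} (h : RowT p z Yb q r c₀) (hr : r ≤ r') : RowT p z Yb q r' c₀ :=
  fun E h1 h2 => (h E h1 h2).trans hr

/-- **The row of the coordinates of one system**, on all events with a frame. `i`: the record, `j`:
the window of the side information, `Bc`: the number of the units. -/
theorem row_cx : ∃ Cr : ℝ, 1 ≤ Cr ∧ ∀ {s hr T N₀ Λ e κ₀ μ η ϖ : ℝ} {Γ : Gc} {X : Cx} {i j Bc : ℕ},
    1 < s → 0 < hr → hr ≤ 1 → X.Ok s hr T N₀ Λ e κ₀ Γ.L → 1 ≤ Γ.m → 1 ≤ Γ.L → i ≤ Γ.L →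
    j ≤ Γ.L → Bc * Γ.m ≤ Γ.L → 0 < η → 0 < ϖ → 0 < e → 240 * e ≤ 1 → (16 * Cr + 4) * e ≤ 1 →
    s + 4 ≤ Λ → s + 4 ≤ T → 200 * Cr * (e * X.q) ≤ μ → 32 * μ ≤ η * X.ρ → μ ≤ X.ρ →
    ∃ e₀ : ℝ, 0 < e₀ ∧ Bas X.S (fun J F B => ∀ (Fr : Frm F) (k u : ℕ) (g : Fin 3 → ℕ),
      0 < Pe F.p B → FrmP F X.c (lw X J) (lp X e₀ J) B Fr →
      (u : ℝ) ≤ Γ.m * X.ρ * J → Γ.m * X.ρ * J ≤ u + 1 →
      (∀ l : Fin 3, (g l : ℝ) ≤ (X.sn (1 + l) (X.x i) - μ + 2 * X.φ) * J) →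
      (∀ l : Fin 3, (X.sn (1 + l) (X.x i) - μ - 2 * X.φ) * J ≤ g l + Bc + 4) →
      ∀ z : F.Ω → Fin 3 → ℤ,
      (∀ ω, B ω → ∀ l, |(z ω l : ℝ) - 2 ^ g l * fX F X.c (lw X J) Fr ω l| ≤ 2) →
      RowT (lq F B) z (lYb X T F B k (X.x j)) (Bc * u)
        ((3 - hr) * (Bc * u) * Real.log 2 + η * u) ϖ) := by
  obtain ⟨Cr, hCr, HR⟩ := row_numP 1 2
  refine ⟨Cr, hCr, ?_⟩
  intro s hr T N₀ Λ e κ₀ μ η ϖ Γ X i j Bc hs h0 h1 hX hm hL hi hj hBL hη hϖ he he1 he2 hΛ hT hμ hμη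
    hμρ
  obtain ⟨hx1, hx2⟩ := x_tq hX hi
  obtain ⟨hj1, hj2⟩ := x_tq hX hj
  have hq := hX.box.u0
  obtain ⟨x', W⟩ := wnd (Cr := Cr) hX hs hCr he he1 (by linarith [mul_pos (show 0 < Cr by linarith) he])
    hΛ hx1 hx2
  obtain ⟨E, hEe⟩ : ∃ E, E = e * X.q := ⟨_, rfl⟩
  rw [← hEe] at W hμ
  have hE := W.E0
  have hφ0 := W.φ0
  have hφE := W.φE
  have hρ := hX.ρ0
  have hm1 : (1 : ℝ) ≤ Γ.m := by exact_mod_cast hm
  have hL1 : (1 : ℝ) ≤ Γ.L := by exact_mod_cast hL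
  have hBc : (0 : ℝ) ≤ Bc := Nat.cast_nonneg Bc
  have hLq : (Γ.L : ℝ) * X.ρ ≤ X.q := by
    have := hX.tx
    have := hX.ρq
    linarith
  have hρq : X.ρ ≤ X.q := by
    have := mul_le_mul_of_nonneg_right hL1 hρ.le
    linarith
  have hBq : (Bc : ℝ) * (Γ.m * X.ρ) ≤ X.q := by
    have a1 : ((Bc * Γ.m : ℕ) : ℝ) ≤ Γ.L := by exact_mod_cast hBL
    push_cast at a1
    have a2 := mul_le_mul_of_nonneg_right a1 hρ.le
    linarith
  have hΛq : (s + 4) * X.q ≤ Λ * X.q := mul_le_mul_of_nonneg_right hΛ hq.le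
  have hCE0 : 0 ≤ Cr * E := by positivity
  have hCE : 16 * (Cr * E) + 4 * E ≤ X.q := by
    have := mul_le_mul_of_nonneg_right he2 hq.le
    rw [hEe]
    linarith
  have hμ0 : 0 ≤ μ := le_trans (by positivity) hμ
  have hsx : s * (X.x i - X.t) ≤ s * X.q := mul_le_mul_of_nonneg_left (by linarith) (by linarith)
  have hsx0 : 0 ≤ s * (X.x i - X.t) := mul_nonneg (by linarith) (by linarith)
  have hEq := W.Eq
  -- the block
  obtain ⟨μ', hμ'⟩ : ∃ μ' : ℝ, μ' = Bc * (Γ.m * X.ρ) + (μ + 2 * X.φ) := ⟨_, rfl⟩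
  have hμ'0 : 0 ≤ μ' := by
    rw [hμ']
    positivity
  obtain ⟨n, hn⟩ : ∃ n : ℕ → ℝ, n = fun l => X.sn l x' := ⟨_, rfl⟩
  obtain ⟨rk, Ea, ha1, ha2, ha3, ha4⟩ := hX.box.att
  obtain ⟨N, hN2, hNϖ, hNB⟩ := shifts hϖ hη hBc
  have hN0 : (0 : ℝ) < N := by
    have : (2 : ℝ) ≤ N := by exact_mod_cast hN2
    linarith
  have hj1' : X.x j ≤ 1 := by
    have := hX.box.wo
    have := hX.box.o1
    have := mul_le_mul_of_nonneg_right (show (1 : ℝ) ≤ Λ by linarith) hq.le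
    linarith
  have H0 := HR (S := X.S) (c := X.c) (sn := X.sn) (G := X.G) (b := X.b) (o := X.o) (φ := 4 * E)
    (ladT_mono hX.box.lad (by linarith)) hX.box.img (s := s) (h := hr) (w := X.t) (u := X.q) (Λ := Λ)
    hs.le hX.box.o1 hX.box.room
    (fun l h1 h2 v hv h3 h4 => (hX.box.lin l h1 h2 v hv h3 h4).trans (by linarith))
    (fun P₁ P₂ h1 h2 h3 => RawN.mono' (hX.box.row P₁ P₂ h1 h2 h3) (by linarith))
    (a := X.t) (w₁ := X.x j) (x := X.x i) (x' := x') (μ := μ') (ν := 0) (n := n)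
    hX.box.wG (hX.gG i hi) W.xG W.bt hx1 W.xo hμ'0 le_rfl (by linarith [W.n1])
    (by
      rw [abs_of_nonneg (by linarith), hμ']
      linarith)
    (by linarith) (fun l _ => by
      rw [hn]
      exact ⟨le_rfl, by linarith⟩)
    (by
      push_cast
      have : 2 * X.q ≤ (s + 4) * X.q := mul_le_mul_of_nonneg_right (by linarith) hq.le
      linarith)
    ⟨rk, Ea, ha1, ha2, ha3, ha4⟩ hj1 hj1' (hX.num.rn j hj) ∅ (by simp) (ϖ / 2) (by positivity)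
    (η * X.ρ / 16) (by positivity) 1 3
  -- the levels
  obtain ⟨K₁, hK₁⟩ : ∃ K₁ : ℝ, K₁ = (((2 : ℕ) + 2 : ℝ) * Real.log (2 * 2 + 1) +
    (((2 : ℕ) : ℝ) + 1 + (3 : ℕ)) * Real.log (2 * (0 + 2 * 2 + 2) + 1)) / (ϖ / 2) := ⟨_, rfl⟩
  obtain ⟨J₁, hJ₁⟩ := dgl W hs hT N
  obtain ⟨J₂, hJ₂⟩ := Pool.CHT.big (η / 2 + 3 * Bc + K₁) (show 0 < η * X.ρ / 4 by positivity)
  obtain ⟨J₃, hJ₃⟩ := Pool.CHT.big ((Bc : ℝ) + 4) (show 0 < 2 * (Cr * (4 * E)) by positivity)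
  obtain ⟨J₄, hJ₄⟩ := Pool.CHT.big (4 + 3 * η / 8) (show 0 < 3 * η / 8 * X.ρ by positivity)
  refine ⟨E, hE, Bas.mono (J₁ + J₂ + J₃ + J₄) H0 ?_⟩
  rintro J hJ F B H1 Fr k u g hB hFr hu1 hu2 hg1 hg2 z hz
  have D := hJ₁ J (by omega)
  have g2 := hJ₂ J (by omega)
  have g3 := hJ₃ J (by omega)
  have g4 := hJ₄ J (by omega)
  have hJ0 : (0 : ℝ) ≤ J := Nat.cast_nonneg J
  have hu0 : (0 : ℝ) ≤ u := Nat.cast_nonneg u
  -- the part
  obtain ⟨A, Hb, H, hAB, hAm, hLD, hHi, hH0⟩ := ldp_part (c := X.c) hFr (b := X.b) (t := X.t)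
    (φ := 4 * E) (sn := X.sn) W.bt W.t1 (fun l => Nat.floor_le_floor
      (mul_le_mul_of_nonneg_right (hX.fr l l.2).1 hJ0))
    (fun l => Nat.floor_le_floor (mul_le_mul_of_nonneg_right (by
      have := (hX.fr l l.2).2.1
      rw [← hEe] at this
      linarith) hJ0)) D.J2 (N := N) (by omega) D.wl hB
  have hNh : 1 / (N : ℝ) ≤ 1 / 2 := by
    have : (2 : ℝ) ≤ N := by exact_mod_cast hN2
    exact one_div_le_one_div_of_le two_pos this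
  have hA2 : Pe F.p B ≤ 2 * Pe F.p A := by
    have := mul_le_mul_of_nonneg_right hNh hB.le
    linarith
  have hA0 : 0 < Pe F.p A := by linarith
  have hcl := isLaw_cond F.isLaw hA0
  have hAp : ∀ ω, 0 < Pool.Agent.H49.Ent.cond F.p A True ω → A ω := fun ω hω =>
    of_cond_pos hω
  -- the row on the part
  have R : RowA F X.c 1 2 ⌊X.t * J⌋₊ (Pool.Agent.H49.Ent.cond F.p A True) H n
      (nP1 1 X.sn (X.x i) μ' (Cr * (4 * E)) ∅) (nP2 1 X.sn (X.x i) (Cr * (4 * E)))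
      (fun l : Fin 3 => (l : ℕ)) g (Bc * u) z (fX F X.c (lw X J) Fr)
      (lYb X T F B k (X.x j)) 2 0 (Real.log (2 * 2 + 1)) := by
    refine ⟨by norm_num, le_rfl, Real.log_nonneg (by norm_num), fun l => ?_, fun l => ?_,
      fun l => ?_, fun ω hω l => hz ω (hAB ω (hAp ω hω)) l, fun ω ω' hω hω' _ l => ?_, ?_,
      fun l hl hl' => ?_⟩
    · have := l.2
      omega
    · have a1 := hg2 l
      have a2 : (Bc : ℝ) * u ≤ Bc * (Γ.m * X.ρ * J) := mul_le_mul_of_nonneg_left hu1 hBc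
      have e1 : nP1 1 X.sn (X.x i) μ' (Cr * (4 * E)) ∅ (l : ℕ) =
          X.sn (1 + l) (X.x i) - 2 * (Cr * (4 * E)) - μ' := if_neg (Finset.notMem_empty _)
      rw [e1, hμ']
      push_cast
      linarith
    · have a1 := hg1 l
      refine a1.trans (mul_le_mul_of_nonneg_right ?_ hJ0)
      show _ ≤ X.sn (1 + l) (X.x i) - Cr * (4 * E)
      have c1 : 200 * Cr * E = 200 * (Cr * E) := by ring
      have c2 : E ≤ Cr * E := le_mul_of_one_le_left hE.le hCr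
      linarith
    · have e1 : ∀ ν : F.Ω, fX F X.c (lw X J) Fr ν l -
          ojet F (X.c (1 + l)) 0 (H (slam F ⌊X.t * J⌋₊ ν) (1 + l)) ν = 0 := fun ν => by
        rw [hHi ν l]
        exact sub_self _
      rw [e1, e1, sub_self, abs_zero, zero_div]
    · -- the digits of the slope-one place
      have h5 : CH (Pool.Agent.H49.Ent.cond F.p A True) (jh F X.c 1 ⌊X.t * J⌋₊ H n)
          (lYb X T F B k (X.x j)) ≤ CH (Pool.Agent.H49.Ent.cond F.p A True)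
          (fun ω => ⌊(2 : ℝ) ^ (n 0 * J) * ojet F (X.c 0) 0 (H (slam F ⌊X.t * J⌋₊ ω) 0) ω⌋)
          (lYb X T F B k (X.x j)) :=
        CH_mono_left hcl.nonneg fun ω ω' _ _ e => by
          funext l j'
          unfold jh
          by_cases h : l < 1 ∧ j' = 0
          · rw [if_pos h, if_pos h]
            obtain rfl : l = 0 := by omega
            exact (Prod.ext_iff.1 e).1
          · rw [if_neg h, if_neg h]
      refine h5.trans (CH_osc hcl (D := 2) (by norm_num) fun ω ω' hω hω' e => ?_)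
      have hAω := hAp ω hω
      have hAω' := hAp ω' hω'
      have p1 := pos_near (T := T) (Prod.ext_iff.1 e).1
      have pL : (0 : ℝ) < 2 ^ (lP X T J - 6) := by positivity
      have p2 : (2 : ℝ) ^ ⌊(X.sn 0 X.b - 4 * E) * J⌋₊ * |F.x ω (X.c 0) - F.x ω' (X.c 0)| <
          1 / (2 * N) := by
        refine (mul_le_mul_of_nonneg_left p1 (by positivity)).trans_lt ?_
        rw [mul_one_div, div_lt_div_iff₀ pL (by positivity), one_mul]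
        exact D.fr
      have p3 := hH0 ω ω' hAω hAω' p2
      have p4 : |(2 : ℝ) ^ (n 0 * J) * ojet F (X.c 0) 0 (H (slam F ⌊X.t * J⌋₊ ω) 0) ω -
          (2 : ℝ) ^ (n 0 * J) * ojet F (X.c 0) 0 (H (slam F ⌊X.t * J⌋₊ ω') 0) ω'| ≤ 1 := by
        rw [← mul_sub, p3, abs_mul, abs_of_pos (Real.rpow_pos_of_pos two_pos _)]
        have q1 : (2 : ℝ) ^ (n 0 * J) ≤ 2 ^ (lP X T J - 6) := by
          rw [hn]
          exact D.nr
        calc (2 : ℝ) ^ (n 0 * J) * |F.x ω (X.c 0) - F.x ω' (X.c 0)| ≤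
              2 ^ (lP X T J - 6) * (1 / 2 ^ (lP X T J - 6)) :=
              mul_le_mul q1 p1 (abs_nonneg _) pL.le
          _ = 1 := by field_simp
      exact (Pool.V0S.fl_near p4).trans (by norm_num)
    · exact absurd ⟨⟨l, by omega⟩, rfl⟩ hl'
  have hDet : Det (Pool.Agent.H49.Ent.cond F.p A True) (lYb X T F B k (X.x j))
      (fun ω => (cR F B (X.x j) ω, F.W ω)) := fun ω ω' _ _ e => (Prod.ext_iff.1 e).2
  obtain ⟨r, hr'⟩ : ∃ r : ℝ, r = (3 - hr) * (Bc * u) * Real.log 2 + η / 2 * u := ⟨_, rfl⟩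
  have hr0 : 0 ≤ r := by
    rw [hr']
    have : 0 ≤ (3 - hr) * (Bc * u) * Real.log 2 :=
      mul_nonneg (mul_nonneg (by linarith) (by positivity)) (Real.log_pos one_lt_two).le
    positivity
  have R1 := H1 A hAB hA2 Hb H hLD R hDet r (by
    rw [hr', ← hK₁]
    have hcard : ((range 2 \ (∅ : Finset ℕ)).card : ℝ) = 2 := by simp
    rw [hcard, hμ']
    have := num_row (h := hr) (Bc := Bc) (mm := Γ.m) (ρ := X.ρ) (J := J) (u := u) (μ := μ)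
      (φ := X.φ) (E := E) (Cr := Cr) (η := η) (K₁ := K₁) h0.le h1 hBc hm1 hρ hJ0 hu0 hu2 hE.le hφE
      hφ0.le hCr hμ hμη hη g2
    push_cast
    linarith)
  have R2 := row_part hAB hB hA0 (show (0 : ℝ) < 1 / N by positivity) hNϖ hAm R1 hr0
  refine row_le R2 ?_
  have hρu : X.ρ * J ≤ u + 1 := by
    have b1 : 1 * (X.ρ * J) ≤ Γ.m * (X.ρ * J) := mul_le_mul_of_nonneg_right hm1 (by positivity)
    linarith
  have h6 := num_loss (δ := 1 / (N : ℝ)) (ϖ := ϖ) (Bc := Bc) (u := u) (η := η) (ρ := X.ρ) (J := J)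
    (by positivity) hNϖ hBc hu0 hNB hη hρu g4
  rw [hr']
  push_cast at h6 ⊢
  linarith

/-- **The rows of the two systems.** -/
theorem pce_R {s hr : ℝ} {Γ : Gc} (hs : 1 < s) (h0 : 0 < hr) (h1 : hr ≤ 1) (hΓ : Γ.Ok s)
    {η ϖ : ℝ} (hη : 0 < η) (hϖ : 0 < ϖ) : Pce s hr Γ (PhR Γ hr η ϖ) := by
  obtain ⟨Cr, hCr, HR⟩ := row_cx
  have hC0 : 0 < 16 * Cr + 4 := by linarith
  refine ⟨1, s + 4, one_pos, fun κ₀ T N₀ _ _ hT _ => ⟨s + 4, 200 * Cr,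
    min (min (1 / 240) (1 / (16 * Cr + 4))) (min (η / 32) 1),
    lt_min (lt_min (by norm_num) (by positivity)) (lt_min (by positivity) one_pos),
    fun Λ e hΛ he he1 X hX μ w₂ hμ hμ1 _ _ _ => ?_⟩⟩
  have hρ := hX.ρ0
  have hφ0 := hX.box.lad.φ0
  have e1 : 240 * e ≤ 1 := by
    have : e ≤ 1 / 240 := he1.trans ((min_le_left _ _).trans (min_le_left _ _))
    linarith
  have e2 : (16 * Cr + 4) * e ≤ 1 := by
    have : e ≤ 1 / (16 * Cr + 4) := he1.trans ((min_le_left _ _).trans (min_le_right _ _))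
    rw [le_div_iff₀ hC0] at this
    linarith
  have m1 : 32 * μ ≤ η * X.ρ := by
    have : μ ≤ η / 32 * X.ρ := hμ1.trans (mul_le_mul_of_nonneg_right
      ((min_le_right _ _).trans (min_le_left _ _)) hρ.le)
    linarith
  have m2 : μ ≤ X.ρ := by
    have : μ ≤ 1 * X.ρ := hμ1.trans (mul_le_mul_of_nonneg_right
      ((min_le_right _ _).trans (min_le_right _ _)) hρ.le)
    linarith
  have hi₁ : Γ.i₁ ≤ Γ.L := hΓ.ij₁.le.trans hΓ.jL₁
  have hL : 1 ≤ Γ.L := by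
    have a1 := hΓ.ij₁
    have a2 := hΓ.jL₁
    omega
  have hk₂ : Γ.k₂ ≤ Γ.L := by
    have a1 := hΓ.ei₂
    have a2 := hΓ.iL
    omega
  have hA0 : Γ.A 0 * Γ.m ≤ Γ.L := by
    have a1 := hΓ.ei₁
    omega
  have hA5 : Γ.A 5 * Γ.m ≤ Γ.L := by
    have a1 := hΓ.ei₂
    have a2 := hΓ.iL
    omega
  obtain ⟨e₁, he₁, H1⟩ := HR hs h0 h1 hX (i := Γ.i₁) (j := 0) (Bc := Γ.A 0) hΓ.m1 hL hi₁
    (Nat.zero_le _) hA0 hη hϖ he e1 e2 hΛ hT hμ m1 m2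
  obtain ⟨e₂, he₂, H2⟩ := HR hs h0 h1 hX (i := Γ.i₂) (j := Γ.k₂) (Bc := Γ.A 5) hΓ.m1 hL hΓ.iL
    hk₂ hA5 hη hϖ he e1 e2 hΛ hT hμ m1 m2
  refine ⟨min e₁ e₂, lt_min he₁ he₂, Bas.mono 0 (H1.and H2) ?_⟩
  rintro J - F B ⟨R1, R2⟩ Fr k ν Ev
  have hJ0 : (0 : ℝ) ≤ J := Nat.cast_nonneg J
  have nm := Ev.nm
  have f1 := (Ev.mono (min_le_left e₁ e₂)).fr
  have f2 := (Ev.mono (min_le_right e₁ e₂)).fr
  refine ⟨fun z hz => R1 Fr k ν.u ν.g Ev.pos f1 nm.uu nm.ul (fun l => (nm.gb l).trans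
      (mul_le_mul_of_nonneg_right ?_ hJ0)) (fun l => le_trans (mul_le_mul_of_nonneg_right ?_ hJ0)
      ((nm.gb' l).trans ?_)) z hz,
    fun z hz => R2 Fr k ν.u ν.g₂ Ev.pos f2 nm.uu nm.ul (fun l => nm.gb₂ l) (fun l => nm.gb₂' l)
      z hz⟩
  · show X.sn (1 + l) (X.x Γ.i₁) - μ ≤ X.sn (1 + l) (X.x Γ.i₁) - μ + 2 * X.φ
    linarith
  · show X.sn (1 + l) (X.x Γ.i₁) - μ - 2 * X.φ ≤ X.sn (1 + l) (X.x Γ.i₁) - μ
    linarith
  · linarith

/-- **The piece `PhR`**, for every property of windows. -/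
theorem st_R (Lb : Hd) : StRw Lb := fun _ _ _ hs h0 h1 hΓ _ _ _ hη hϖ =>
  (pce_R hs h0 h1 hΓ hη hϖ).w

end Pool.T4R55
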