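import Pool.Agent.H55.T4.RowP
import Pool.Agent.H62.OVN.Exh
import Pool.Agent.H48.T4X.Evw
import Pool.Agent.H62.V0C.Cfb

/-!
# The labels of the frame on most of an event, with a constant label of the slope-one place

`row_part`: a row on most of an event is a row on the event. `cfb_one`: own paths over affine labels.
`ldp_part`: on most of an event the labels `LDP` over the labels of the frame and a constant label of
`c 0`.
-/

set_option autoImplicit false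

namespace Pool.T4R55

open Finset Real MvPolynomial
open Pool.Agent.H49.Ent Pool.Agent.H32.Dense
open Pool.STK hiding pr2
open Pool.KA Pool.KSAT Pool.K2S Pool.PB Pool.S6C
open Pool.GEN Pool.CHT Pool.CHX Pool.ISO Pool.LA91 Pool.AVG71 Pool.AVG5 Pool.D2F2 Pool.AVG57
open Pool.RCD Pool.AVG96 Pool.OWN68 Pool.V0F Pool.V0Q Pool.V0T
open Pool.AJW (CfB)
open Pool.GRD (LbP)
open Pool.T4H (RowT)
open Pool.T4G (NrW wall_shift)
open Pool.T4R (near_of_div CH_osc)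
open Pool.T4N (Frm FrmP fX lin1 jet1_lin)

variable {m J : ℕ}

/-! ### A row on most of an event -/

theorem lg_pow (q : ℕ) : Real.log (2 * 2 ^ q + 1) ≤ ((q : ℝ) + 2) * Real.log 2 := by
  have h1 : (2 : ℝ) * 2 ^ q + 1 ≤ 2 ^ (q + 2) := by
    have h2 : (1 : ℝ) ≤ 2 ^ q := one_le_pow₀ one_le_two
    rw [pow_add]
    linarith
  calc Real.log (2 * 2 ^ q + 1) ≤ Real.log (2 ^ (q + 2)) :=
        Real.log_le_log (by positivity) h1
    _ = ((q : ℝ) + 2) * Real.log 2 := by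
        rw [Real.log_pow]
        push_cast
        ring

/-- **A row on most of an event is a row on the event.** -/
theorem row_part {F : Fam m J} {A A₀ : F.Ω → Prop} (hAA : Sub A A₀) (hA₀ : 0 < Pe F.p A₀)
    (hA' : 0 < Pe F.p A) {δ ϖ : ℝ} (hδ : 0 < δ) (hδϖ : 2 * δ ≤ ϖ)
    (hA : (1 - δ) * Pe F.p A₀ ≤ Pe F.p A) {C : ℕ} {z : F.Ω → Fin C → ℤ} {υ : Type} {Yb : F.Ω → υ}
    {q : ℕ} {r : ℝ} (H : RowT (Pool.Agent.H49.Ent.cond F.p A True) z Yb q r (ϖ / 2))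
    (hr : 0 ≤ r) :
    RowT (Pool.Agent.H49.Ent.cond F.p A₀ True) z Yb q
      (r + Real.log 2 + δ / ϖ * (C * (((q : ℝ) + 2) * Real.log 2))) ϖ := by
  intro E hE hE0
  have hϖ : 0 < ϖ := by linarith
  have hl2 : 0 < Real.log 2 := Real.log_pos one_lt_two
  obtain ⟨B₀, hB₀⟩ : ∃ B₀ : F.Ω → Prop, B₀ = fun ω => A₀ ω ∧ E ω := ⟨_, rfl⟩
  obtain ⟨B, hB⟩ : ∃ B : F.Ω → Prop, B = fun ω => A ω ∧ E ω := ⟨_, rfl⟩
  obtain ⟨D, hD⟩ : ∃ D : F.Ω → Prop, D = fun ω => B₀ ω ∧ ¬ B ω := ⟨_, rfl⟩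
  rw [Pe_cond, le_div_iff₀ hA₀, ← hB₀] at hE
  have hBB : Sub B B₀ := fun ω hω => by
    rw [hB] at hω
    rw [hB₀]
    exact ⟨hAA ω hω.1, hω.2⟩
  have p1 := Pe_parts (p := F.p) hBB
  rw [← hD] at p1
  have p2 := Pe_parts (p := F.p) hAA
  have p3 : Pe F.p D ≤ Pe F.p (fun ω => A₀ ω ∧ ¬ A ω) := by
    refine Pe_mono F.isLaw fun ω hω => ?_
    rw [hD, hB₀, hB] at hω
    exact ⟨hω.1.1, fun h => hω.2 ⟨h, hω.1.2⟩⟩
  have p4 : Pe F.p D ≤ δ * Pe F.p A₀ := by linarith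
  have p5 : 0 < Pe F.p B₀ := lt_of_lt_of_le (mul_pos hϖ hA₀) hE
  have hAle : Pe F.p A ≤ Pe F.p A₀ := Pe_mono F.isLaw hAA
  have p6 : ϖ / 2 * Pe F.p A ≤ Pe F.p B := by
    have h1 : ϖ / 2 * Pe F.p A ≤ ϖ / 2 * Pe F.p A₀ :=
      mul_le_mul_of_nonneg_left hAle (by linarith)
    have h2 : 2 * δ * Pe F.p A₀ ≤ ϖ * Pe F.p A₀ := mul_le_mul_of_nonneg_right hδϖ hA₀.le
    linarith
  have p7 : 0 < Pe F.p B := lt_of_lt_of_le (by positivity) p6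
  -- the row on the part
  have h1 : Pe (Pool.Agent.H49.Ent.cond F.p A True) E = Pe F.p B / Pe F.p A := by
    rw [Pe_cond, hB]
  have h2 := H E (by rw [h1, le_div_iff₀ hA']; exact p6) (by rw [h1]; positivity)
  rw [Piece.cond_inter hA'.ne', ← hB] at h2
  -- the rest
  obtain ⟨M, hM⟩ : ∃ M : ℝ, M = C * (((q : ℝ) + 2) * Real.log 2) := ⟨_, rfl⟩
  have hM0 : 0 ≤ M := by
    rw [hM]
    positivity
  have h3 : Pe F.p D * CH (Pool.Agent.H49.Ent.cond F.p D True) z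
      (fun ω => ((fun l => z ω l / 2 ^ q), Yb ω)) ≤ Pe F.p D * M := by
    have hD0 := Pe_nonneg F.isLaw D
    rcases hD0.eq_or_lt with h | h
    · rw [← h, zero_mul, zero_mul]
    · refine mul_le_mul_of_nonneg_left ?_ h.le
      have hc := isLaw_cond F.isLaw h
      refine (CH_le_vec hc.nonneg hc.sum_one z _ (fun _ => 2 ^ q) ?_).trans ?_
      · intro ω ω' _ _ e k
        have e1 : z ω k / 2 ^ q = z ω' k / 2 ^ q := congrFun (Prod.ext_iff.1 e).1 k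
        have e2 := near_of_div e1
        push_cast
        exact e2
      · rw [Ex_const hc.sum_one, hM]
        exact mul_le_mul_of_nonneg_left (lg_pow q) (Nat.cast_nonneg C)
  have h4 := Pool.OVN.CH_split F.isLaw hBB p5 z (fun ω => ((fun l => z ω l / 2 ^ q), Yb ω))
  rw [← hD] at h4
  rw [Piece.cond_inter hA₀.ne', ← hB₀]
  have h5 : Pe F.p B * CH (Pool.Agent.H49.Ent.cond F.p B True) z
      (fun ω => ((fun l => z ω l / 2 ^ q), Yb ω)) ≤ Pe F.p B₀ * r :=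
    (mul_le_mul_of_nonneg_left h2 p7.le).trans
      (mul_le_mul_of_nonneg_right (Pe_mono F.isLaw hBB) hr)
  have h6 : Pe F.p D * M ≤ Pe F.p B₀ * (δ / ϖ * M) := by
    have a1 : Pe F.p D * M ≤ δ * Pe F.p A₀ * M := mul_le_mul_of_nonneg_right p4 hM0
    have a2 : Pe F.p A₀ ≤ Pe F.p B₀ / ϖ := by
      rw [le_div_iff₀ hϖ]
      linarith
    have a3 : δ * Pe F.p A₀ * M ≤ δ * (Pe F.p B₀ / ϖ) * M :=
      mul_le_mul_of_nonneg_right (mul_le_mul_of_nonneg_left a2 hδ.le) hM0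
    refine a1.trans (a3.trans (le_of_eq ?_))
    ring
  have h7 : Pe F.p B₀ * CH (Pool.Agent.H49.Ent.cond F.p B₀ True) z
      (fun ω => ((fun l => z ω l / 2 ^ q), Yb ω)) ≤
      Pe F.p B₀ * (r + Real.log 2 + δ / ϖ * M) := by
    have e1 : Pe F.p B₀ * (r + Real.log 2 + δ / ϖ * M) = Pe F.p B₀ * r +
        Pe F.p B₀ * Real.log 2 + Pe F.p B₀ * (δ / ϖ * M) := by ring
    rw [e1]
    linarith
  rw [hM] at h7
  exact le_of_mul_le_mul_left h7 p5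

/-! ### Own paths over affine labels -/

/-- **Own paths over affine labels have bounded coefficients.** -/
theorem cfb_one {F : Fam m J} {W : ℕ} (hW : W ≤ J) {κ : Fin m} {A : F.Ω → Prop}
    {H : LnT F → MvPolynomial (Option (Fin m)) ℝ} (hd : ∀ s, (H s).totalDegree ≤ 1)
    (h0 : ∀ ω, A ω → |ojet F κ 0 (H (slam F W ω)) ω| ≤ 1)
    (h1 : ∀ ω, A ω → |ojet F κ 1 (H (slam F W ω)) ω| ≤ 2 ^ (2 * J)) (hJ : 2 ≤ J) :
    CfB F W 3 κ A (fun s => s) H := by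
  intro ω hω a
  obtain ⟨Q, hQ⟩ : ∃ Q, Q = dv W (fun s (_ : Fin m) => H s) κ (slam F W ω) := ⟨_, rfl⟩
  have hQd : Q.natDegree ≤ 1 := by
    rw [hQ]
    unfold dv
    exact (Polynomial.natDegree_sub_le _ _).trans (max_le (natDegree_lc W _ _)
      (Pool.KBX.natDegree_aeval_le _ _ (natDegree_lc W _) (hd _)))
  have p1 : (1 : ℝ) ≤ 2 ^ (2 * J) := one_le_pow₀ one_le_two
  have hjt : ∀ i, a ≤ i → |jt Q (Pool.PB.Trl.rt F W ω) i| ≤ 2 ^ (2 * J) := by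
    intro i _
    have e1 : jt Q (Pool.PB.Trl.rt F W ω) i = ojet F κ i (H (slam F W ω)) ω /
        ((i.factorial : ℝ) * (2 ^ W) ^ i) := by
      rw [hQ]
      exact Pool.AVG57.ojet_tay F hW ω κ (fun s (_ : Fin m) => H s) i
    have hw : (1 : ℝ) ≤ 2 ^ W := one_le_pow₀ one_le_two
    rcases Nat.lt_or_ge i 2 with hi | hi
    · rw [e1]
      rcases Nat.lt_or_ge i 1 with h | h
      · obtain rfl : i = 0 := by omega
        rw [Nat.factorial_zero, Nat.cast_one, pow_zero, one_mul, div_one]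
        exact (h0 ω hω).trans p1
      · obtain rfl : i = 1 := by omega
        rw [Nat.factorial_one, Nat.cast_one, pow_one, one_mul, abs_div,
          abs_of_pos (by positivity : (0 : ℝ) < 2 ^ W)]
        exact (div_le_self (abs_nonneg _) hw).trans (h1 ω hω)
    · have e0 : jt Q (Pool.PB.Trl.rt F W ω) i = 0 := by
        unfold jt
        refine Polynomial.coeff_eq_zero_of_natDegree_lt ?_
        rw [Polynomial.natDegree_taylor]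
        omega
      rw [e0, abs_zero]
      positivity
  have h2 := co_le hQd (Pool.V0C62.rt_abs F W ω) (by positivity) hjt
  show |(dv W (fun s (_ : Fin m) => H s) κ (slam F W ω)).coeff a| ≤ _
  rw [← hQ]
  refine h2.trans ?_
  have e1 : (2 : ℝ) ^ (1 + 1) * 2 ^ (2 * J) = 2 ^ (2 + 2 * J) := by rw [← pow_add]
  rw [e1, ← Real.rpow_natCast]
  refine Real.rpow_le_rpow_of_exponent_le one_le_two ?_
  have h3 : (2 : ℝ) ≤ J := by exact_mod_cast hJ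
  push_cast
  linarith

/-! ### A constant label of the slope-one place -/

/-- The constant label. -/
noncomputable def cl0 (m P N k : ℕ) (n : ℤ) : MvPolynomial (Option (Fin m)) ℝ :=
  MvPolynomial.C (((n : ℝ) - (k : ℝ) / N) / 2 ^ P)

theorem oj0_cl0 (F : Fam m J) (κ : Fin m) (P N k : ℕ) (n : ℤ) (ω : F.Ω) :
    ojet F κ 0 (cl0 m P N k n) ω = F.x ω κ - ((n : ℝ) - (k : ℝ) / N) / 2 ^ P := by
  rw [ojet_zero]
  unfold cl0
  rw [eval_C]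

theorem deg_cl0 (P N k : ℕ) (n : ℤ) : (cl0 m P N k n).totalDegree ≤ 1 := by
  unfold cl0
  rw [totalDegree_C]
  exact Nat.zero_le _

theorem oj1_cl0 (F : Fam m J) (κ : Fin m) (P N k : ℕ) (n : ℤ) (ω : F.Ω) :
    ojet F κ 1 (cl0 m P N k n) ω = F.d ω κ := by
  unfold ojet
  rw [jet1_lin ((totalDegree_sub _ _).trans (max_le (by rw [totalDegree_X]) (deg_cl0 P N k n)))]
  unfold lin1 cl0
  rw [map_sub, map_sub, eval_X, eval_X, eval_C, eval_C]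
  show F.d ω κ - _ - (0 - _) = _
  ring

theorem near_cl0 {P N k : ℕ} {x : ℝ} : |x - (((⌊(2 : ℝ) ^ P * x + (k : ℝ) / N⌋ : ℤ) : ℝ) -
    (k : ℝ) / N) / 2 ^ P| ≤ 1 / 2 ^ P := by
  have h1 := Int.floor_le ((2 : ℝ) ^ P * x + (k : ℝ) / N)
  have h2 := Int.lt_floor_add_one ((2 : ℝ) ^ P * x + (k : ℝ) / N)
  have p : (0 : ℝ) < 2 ^ P := by positivity
  rw [abs_le]
  constructor
  · rw [neg_le_sub_iff_le_add, div_le_iff₀ p, add_mul, div_mul_cancel₀ _ p.ne']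
    linarith
  · rw [sub_le_iff_le_add, ← add_div, le_div_iff₀ p]
    linarith

/-- Near positions off the walls. -/
theorem fl_off {F : Fam m J} {κ : Fin m} {P N k : ℕ} {ω ω' : F.Ω}
    (h : ¬ NrW N ((2 : ℝ) ^ P * F.x ω κ + (k : ℝ) / N))
    (h1 : (2 : ℝ) ^ P * |F.x ω κ - F.x ω' κ| < 1 / (2 * N)) :
    ⌊(2 : ℝ) ^ P * F.x ω κ + (k : ℝ) / N⌋ = ⌊(2 : ℝ) ^ P * F.x ω' κ + (k : ℝ) / N⌋ := by
  refine Pool.T4G.fl_wall h ?_
  have e1 : (2 : ℝ) ^ P * F.x ω κ + (k : ℝ) / N - ((2 : ℝ) ^ P * F.x ω' κ + (k : ℝ) / N) =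
      2 ^ P * (F.x ω κ - F.x ω' κ) := by ring
  rw [e1, abs_mul, abs_of_pos (by positivity)]
  exact h1

/-- **The constant label is closed off the walls.** -/
theorem cl_ex {F : Fam m J} {κ : Fin m} {A : F.Ω → Prop} {W P N k : ℕ} (hW : W ≤ J) (hN : 1 ≤ N)
    (hPW : (2 : ℝ) ^ P * (2 * N) < 2 ^ W)
    (hA : ∀ ω, A ω → ¬ NrW N ((2 : ℝ) ^ P * F.x ω κ + (k : ℝ) / N)) :
    ∃ (z : PtT F → ℤ) (z' : LnT F → ℤ), ∀ ω, A ω →
      z (ptr F J ω) = ⌊(2 : ℝ) ^ P * F.x ω κ + (k : ℝ) / N⌋ ∧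
      z' (slam F W ω) = ⌊(2 : ℝ) ^ P * F.x ω κ + (k : ℝ) / N⌋ := by
  have hN0 : (0 : ℝ) < 2 * N := by
    have : (1 : ℝ) ≤ N := by exact_mod_cast hN
    linarith
  have key : ∀ n : ℕ, W ≤ n → ∀ ω ω', |F.x ω κ - F.x ω' κ| ≤ 1 / 2 ^ n →
      (2 : ℝ) ^ P * |F.x ω κ - F.x ω' κ| < 1 / (2 * N) := by
    intro n hn ω ω' h
    have h1 : (2 : ℝ) ^ W ≤ 2 ^ n := pow_le_pow_right₀ one_le_two hn
    have h2 : (2 : ℝ) ^ P * |F.x ω κ - F.x ω' κ| ≤ 2 ^ P * (1 / 2 ^ n) :=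
      mul_le_mul_of_nonneg_left h (by positivity)
    refine h2.trans_lt ?_
    rw [mul_one_div, div_lt_div_iff₀ (by positivity) hN0, one_mul]
    linarith
  obtain ⟨z, hz⟩ := Pool.T4X.rep_y A (fun ω => ptr F J ω)
    (fun ω => ⌊(2 : ℝ) ^ P * F.x ω κ + (k : ℝ) / N⌋) ⟨0⟩
    (fun ω ω' hω _ e => fl_off (hA ω hω) (key J hW ω ω' (Pool.T4X.x_pt e κ)))
  obtain ⟨z', hz'⟩ := Pool.T4X.rep_y A (fun ω => slam F W ω)
    (fun ω => ⌊(2 : ℝ) ^ P * F.x ω κ + (k : ℝ) / N⌋) ⟨0⟩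
    (fun ω ω' hω _ e => fl_off (hA ω hω) (key W le_rfl ω ω' (Pool.T4X.x_ln hW e κ)))
  exact ⟨z, z', fun ω hω => ⟨hz ω hω, hz' ω hω⟩⟩

/-! ### The labels -/

/-- The labels over the frame at the window `W`. -/
noncomputable def hF {F : Fam m J} (w : Fin 3 → ℕ) (Fr : Frm F) (W Wb : ℕ)
    (Hb : LnT F → MvPolynomial (Option (Fin m)) ℝ) (s : LnT F) (l : ℕ) :
    MvPolynomial (Option (Fin m)) ℝ :=
  if h : 1 ≤ l ∧ l ≤ 3 then
    (fun i : Fin 3 => Fr.G i (Fr.z' i (upw (w i) W s))) ⟨l - 1, by omega⟩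
  else Hb (upw Wb W s)

theorem hF_in {F : Fam m J} (w : Fin 3 → ℕ) (Fr : Frm F) (W Wb : ℕ)
    (Hb : LnT F → MvPolynomial (Option (Fin m)) ℝ) (s : LnT F) (i : Fin 3) :
    hF w Fr W Wb Hb s (1 + i) = Fr.G i (Fr.z' i (upw (w i) W s)) := by
  have hi := i.2
  have e : (⟨1 + (i : ℕ) - 1, by omega⟩ : Fin 3) = i := Fin.ext (by simp)
  unfold hF
  rw [dif_pos ⟨by omega, by omega⟩]
  exact congrArg (fun i : Fin 3 => Fr.G i (Fr.z' i (upw (w i) W s))) e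

theorem hF_0 {F : Fam m J} (w : Fin 3 → ℕ) (Fr : Frm F) (W Wb : ℕ)
    (Hb : LnT F → MvPolynomial (Option (Fin m)) ℝ) (s : LnT F) :
    hF w Fr W Wb Hb s 0 = Hb (upw Wb W s) := by
  unfold hF
  rw [dif_neg (by omega)]

/-- **The labels over the frame and a constant label of `c 0`**, on most of an event. -/
theorem ldp_part {F : Fam m J} {c : ℕ → Fin m} {w P : Fin 3 → ℕ} {B : F.Ω → Prop} {Fr : Frm F}
    (hFr : FrmP F c w P B Fr) {b t φ : ℝ} {sn : ℕ → ℝ → ℝ} (hbt : b ≤ t) (ht1 : t ≤ 1)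
    (hw : ∀ i, w i ≤ ⌊t * J⌋₊) (hP : ∀ i : Fin 3, ⌊(sn (1 + i) t - φ) * J⌋₊ ≤ P i) (hJ : 2 ≤ J)
    {N : ℕ} (hN : 1 ≤ N) (hwl : (2 : ℝ) ^ ⌊(sn 0 b - φ) * J⌋₊ * (2 * N) < 2 ^ ⌊b * J⌋₊)
    (hB : 0 < Pe F.p B) :
    ∃ (A : F.Ω → Prop) (Hb H : LnT F → ℕ → MvPolynomial (Option (Fin m)) ℝ), Sub A B ∧
      (1 - 1 / (N : ℝ)) * Pe F.p B ≤ Pe F.p A ∧ LDP F c 1 2 1 b t φ 3 sn A Hb H ∧
      (∀ ω, ∀ i : Fin 3, H (slam F ⌊t * J⌋₊ ω) (1 + i) = Fr.G i (Fr.z' i (slam F (w i) ω))) ∧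
      ∀ ω ω', A ω → A ω' →
        (2 : ℝ) ^ ⌊(sn 0 b - φ) * J⌋₊ * |F.x ω (c 0) - F.x ω' (c 0)| < 1 / (2 * N) →
        ojet F (c 0) 0 (H (slam F ⌊t * J⌋₊ ω) 0) ω - ojet F (c 0) 0 (H (slam F ⌊t * J⌋₊ ω') 0) ω' =
          F.x ω (c 0) - F.x ω' (c 0) := by
  obtain ⟨Wb, hWb⟩ : ∃ Wb : ℕ, Wb = ⌊b * J⌋₊ := ⟨_, rfl⟩
  obtain ⟨W, hW⟩ : ∃ W : ℕ, W = ⌊t * J⌋₊ := ⟨_, rfl⟩
  obtain ⟨Q, hQ⟩ : ∃ Q : ℕ, Q = ⌊(sn 0 b - φ) * J⌋₊ := ⟨_, rfl⟩
  rw [← hWb, ← hQ] at hwl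
  rw [← hW] at hw
  have hWJ : W ≤ J := by
    rw [hW]
    exact floor_le ht1 J
  have hWbW : Wb ≤ W := by
    rw [hWb, hW]
    exact Nat.floor_le_floor (mul_le_mul_of_nonneg_right hbt (Nat.cast_nonneg J))
  have hWbJ : Wb ≤ J := hWbW.trans hWJ
  obtain ⟨k, -, hk⟩ := wall_shift (ι := Fin 1) (isLaw_cond F.isLaw hB)
    (fun ω _ => (2 : ℝ) ^ Q * F.x ω (c 0)) (N := N) hN
  obtain ⟨E, hE⟩ : ∃ E : F.Ω → Prop, E = fun ω => ¬ NrW N ((2 : ℝ) ^ Q * F.x ω (c 0) + (k : ℝ) / N) :=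
    ⟨_, rfl⟩
  have hm : (1 - 1 / (N : ℝ)) * Pe F.p B ≤ Pe F.p (fun ω => B ω ∧ E ω) := by
    refine Pool.T4N91.pe_of_pb F.isLaw hB ?_
    rw [← Pool.LBK.Pe_sum]
    have h3 : Fintype.card (Fin 1) = 1 := Fintype.card_fin 1
    rw [h3] at hk
    refine le_trans (Pool.K2S.Pe_mono (isLaw_cond F.isLaw hB) fun ω hω => ?_)
      (hk.trans (by norm_num))
    rw [hE, not_not] at hω
    exact ⟨0, hω⟩
  obtain ⟨A, hA⟩ : ∃ A : F.Ω → Prop, A = fun ω => B ω ∧ E ω := ⟨_, rfl⟩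
  rw [← hA] at hm
  have hAB : Sub A B := fun ω hω => by
    rw [hA] at hω
    exact hω.1
  have hAE : ∀ ω, A ω → ¬ NrW N ((2 : ℝ) ^ Q * F.x ω (c 0) + (k : ℝ) / N) := fun ω hω => by
    rw [hA] at hω
    have h := hω.2
    rw [hE] at h
    exact h
  obtain ⟨z, z', hz⟩ := cl_ex (κ := c 0) hWbJ hN hwl hAE
  obtain ⟨Hb, hHb⟩ : ∃ Hb : LnT F → ℕ → MvPolynomial (Option (Fin m)) ℝ,
    Hb = fun s _ => cl0 m Q N k (z' s) := ⟨_, rfl⟩
  obtain ⟨H, hH⟩ : ∃ H : LnT F → ℕ → MvPolynomial (Option (Fin m)) ℝ,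
    H = hF w Fr W Wb (fun s => Hb s 0) := ⟨_, rfl⟩
  have hH0 : ∀ ω, H (slam F W ω) 0 = Hb (slam F Wb ω) 0 := fun ω => by
    rw [hH, hF_0, upw_slam F hWbW hWJ]
  have hHi : ∀ ω, ∀ i : Fin 3, H (slam F W ω) (1 + i) = Fr.G i (Fr.z' i (slam F (w i) ω)) :=
    fun ω i => by
      rw [hH, hF_in, upw_slam F (hw i) hWJ]
  have hFA := hFr.sub hAB
  have p1 : (1 : ℝ) ≤ 2 ^ Q := one_le_pow₀ one_le_two
  have hinv : (1 : ℝ) / 2 ^ Q ≤ 1 := by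
    rw [div_le_one (by positivity)]
    exact p1
  refine ⟨A, Hb, H, hAB, hm, ?_, ?_, ?_⟩
  · refine ⟨fun l hl => ?_, fun l h1 h2 => ?_, fun l hl => ?_, fun l h1 h2 => ?_, fun ω l hl => ?_⟩
    · obtain rfl : l = 0 := by omega
      refine ⟨ℤ, z, z', fun n => cl0 m Q N k n, ?_, fun s => by rw [hHb]⟩
      rw [← hWb, ← hQ]
      refine ⟨fun n => deg_cl0 Q N k n, fun n v v' _ _ => ?_, fun ω hω => ?_, fun ω hω => ?_⟩
      · unfold cl0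
        rw [eval_C, eval_C]
      · rw [(hz ω hω).1, (hz ω hω).2]
      · rw [(hz ω hω).2]
        unfold cl0
        rw [eval_C]
        exact near_cl0
    · obtain ⟨i, hi⟩ : ∃ i : Fin 3, l = 1 + (i : ℕ) := ⟨⟨l - 1, by omega⟩, by
        show l = 1 + (l - 1)
        omega⟩
      subst hi
      refine ⟨Fr.V i, Fr.z i, fun s => Fr.z' i (upw (w i) W s), Fr.G i, ?_, fun s => ?_⟩
      · rw [← hW]
        exact ((hFA.lab i).win (hw i) hWJ).mono (Finset.Subset.refl _) le_rfl (hP i)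
      · rw [hH, hF_in]
    · obtain rfl : l = 0 := by omega
      rw [← hWb]
      refine cfb_one hWbJ (fun s => ?_) (fun ω hω => ?_) (fun ω hω => ?_) hJ
      · rw [hHb]
        exact deg_cl0 Q N k _
      · rw [hHb]
        show |ojet F (c 0) 0 (cl0 m Q N k (z' (slam F Wb ω))) ω| ≤ 1
        rw [oj0_cl0, (hz ω hω).2]
        exact near_cl0.trans hinv
      · rw [hHb]
        show |ojet F (c 0) 1 (cl0 m Q N k (z' (slam F Wb ω))) ω| ≤ _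
        rw [oj1_cl0]
        exact (F.dir ω (c 0)).trans (one_le_pow₀ one_le_two)
    · obtain ⟨i, hi⟩ : ∃ i : Fin 3, l = 1 + (i : ℕ) := ⟨⟨l - 1, by omega⟩, by
        show l = 1 + (l - 1)
        omega⟩
      subst hi
      rw [← hW]
      refine cfb_one hWJ (fun s => ?_) (fun ω hω => ?_) (fun ω hω => ?_) hJ
      · show (H s (1 + (i : ℕ))).totalDegree ≤ 1
        rw [hH, hF_in]
        exact (hFA.lab i).deg _
      · show |ojet F (c (1 + (i : ℕ))) 0 (H (slam F W ω) (1 + (i : ℕ))) ω| ≤ 1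
        rw [hHi, ojet_zero]
        refine ((hFA.lab i).pos ω hω).trans ?_
        rw [div_le_one (by positivity)]
        exact one_le_pow₀ one_le_two
      · show |ojet F (c (1 + (i : ℕ))) 1 (H (slam F W ω) (1 + (i : ℕ))) ω| ≤ _
        rw [hHi]
        exact hFA.cut ω hω i
    · obtain rfl : l = 0 := by omega
      rw [← hW, ← hWb]
      exact hH0 ω
  · rw [← hW]
    exact hHi
  · intro ω ω' hω hω' h
    rw [← hQ] at h
    rw [← hW, hH0, hH0, hHb]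
    show ojet F (c 0) 0 (cl0 m Q N k (z' (slam F Wb ω))) ω -
      ojet F (c 0) 0 (cl0 m Q N k (z' (slam F Wb ω'))) ω' = _
    rw [oj0_cl0, oj0_cl0, (hz ω hω).2, (hz ω' hω').2, fl_off (hAE ω hω) h]
    ring

end Pool.T4R55
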