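import Pool.Agent.H55.T4.RowN
import Pool.Agent.H45.EXA.ExvB

/-!
# The total row of the coordinates of the tie on a part of an event

`row_ldpP`, `row_numP`: `row_ldp`, `row_num` on a part `A` of the event `A₀`, with the canonical record
of `A₀`.
-/

set_option autoImplicit false

namespace Pool.T4R

open Finset Real MvPolynomial
open Pool.Agent.H49.Ent Pool.Agent.H32.Dense
open Pool.STK hiding pr2
open Pool.KA Pool.KSAT Pool.K2S Pool.PB Pool.S6C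
open Pool.GEN Pool.CHT Pool.CHX Pool.ISO Pool.LA91 Pool.AVG71 Pool.AVG5 Pool.D2F2 Pool.AVG57
open Pool.RCD Pool.AVG96 Pool.OWN68 Pool.V0F Pool.V0Q Pool.V0T
open Pool.AJW (CfB)
open Pool.T4H (RowT)

/-- **The row of the coordinates of the tie on a part** `A` of an event `A₀`, with the record of `A₀`. Numbers as in
`RwrStmt`; `P₁ v = P₂ v` for the targets `v` which are not alive is allowed. -/
theorem row_ldpP (k f : ℕ) : ∃ Cr : ℝ, 1 ≤ Cr ∧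
  ∀ {m : ℕ} {S : PCl m} {c : ℕ → Fin m} {sn : ℕ → ℝ → ℝ} {G : Set ℝ} {b o φ : ℝ},
    LadT S c k f sn G b o φ → (range (k + f)).image c = univ.erase (c (k + f)) →
    ∀ {w w₁ x x' : ℝ} {n P₁ P₂ : ℕ → ℝ} {h δ : ℝ}, w ∈ G → x ∈ G → x' ∈ G →
    b ≤ w → w ≤ x → x + Cr * φ ≤ x' → x' ≤ o → x' + Cr * φ ≤ 1 →
    (∀ i < k, sn i x' ≤ n i ∧ n i ≤ 1) → Tp k sn b φ n →
    (∀ u ≤ f, 0 ≤ P₁ u ∧ P₁ u ≤ P₂ u ∧ P₂ u ≤ 1 ∧ P₂ u + Cr * φ ≤ sn (k + u) x ∧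
      P₂ u + Cr * φ ≤ sn (k + u) w + (x' - w)) →
    (∀ u < f, sn (k + u) x ≤ P₂ u + 2 * Cr * φ) →
    (∀ u ≤ f, ∀ l < k + u, P₂ u + Cr * φ ≤ sn (k + u) w + (1 - sn l w)) →
    (∃ rk E₁ : ℝ, rk < 1 ∧ 0 ≤ E₁ ∧
      AttG S ((range (k + f)).image c) (c (k + f)) w (sn (k + f) w) rk E₁ ∧ P₂ f + E₁ ≤ 1) →
    RawN S (univ.erase (c (k + f))) (c (k + f)) (P₁ f) (P₂ f - P₁ f) h δ → w ≤ w₁ → w₁ ≤ 1 →
    (∃ η : ℝ, RNum S (fun J F => ptr F J) (vg w₁) η) → ∀ π₀ : ℝ, 0 < π₀ → ∀ ε : ℝ, 0 < ε →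
    ∀ (D : ℕ) (Ec : ℝ), Bas S (fun J F A₀ => ∀ A : F.Ω → Prop, Sub A A₀ →
      Pe F.p A₀ ≤ 2 * Pe F.p A →
      ∀ Hb H : LnT F → ℕ → MvPolynomial (Option (Fin m)) ℝ, LDP F c k f D b w φ Ec sn A Hb H →
      ∀ {C : ℕ} {al : Fin C → ℕ} {g : Fin C → ℕ} {q : ℕ} {z : F.Ω → Fin C → ℤ}
        {xc : F.Ω → Fin C → ℝ} {υ : Type} {Yb : F.Ω → υ} {B K θ : ℝ},
      RowA F c k f ⌊w * J⌋₊ (Pool.Agent.H49.Ent.cond F.p A True) H n P₁ P₂ al g q z xc Yb B K θ →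
      Det (Pool.Agent.H49.Ent.cond F.p A True) Yb (fun ω => (cR F A₀ w₁ ω, F.W ω)) →
      ∀ r : ℝ, (((1 - h) * (P₂ f - P₁ f) + ∑ u ∈ range f, (P₂ u - P₁ u)) * Real.log 2 + δ +
          8 * ((f : ℝ) + 1) * Cr * φ + ε) * J +
          (((f : ℝ) + 2) * θ + ((f : ℝ) + 1 + C) * Real.log (2 * (K + 2 * B + 2) + 1)) / π₀ ≤ r →
      RowT (Pool.Agent.H49.Ent.cond F.p A True) z Yb q r π₀) := by
  obtain ⟨Cr, hCr1, H0⟩ := t_rwr k f
  refine ⟨Cr, hCr1, ?_⟩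
  intro m S c sn G b o φ L hI w w₁ x x' n P₁ P₂ h δ hw hx hx' hbw hwx hxx hxo hx1 hn tp hP hPn hPl
    hatt hraw hw₁ hw₁1 hη π₀ hπ ε hε D Ec
  obtain ⟨rk, Ee, hrk, hEe, hat, hEs⟩ := hatt
  obtain ⟨η, hη⟩ := hη
  have hφ0 := L.φ0
  have hb0 := L.b0
  have hw0 : 0 ≤ w := hb0.trans hbw
  have hw1 : w ≤ 1 := hw₁.trans hw₁1
  obtain ⟨κ₁, hκ₁, e₀, he₀, HR⟩ := H0 L hI (w := w) (w₁ := w₁) (x := x) (x' := x')
    (p := fun l => sn l b - φ) (n := n) (pr := fun v => sn (k + v) w - φ)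
    (P₁ := P₁) (P₂ := P₂) (h := h) (δ := δ) (E₁ := Ee) hw hx hx' hbw hwx hxx hxo hx1
    (fun i _ => le_rfl) (fun _ _ => le_rfl) hn tp hP hPn hPl
    ⟨rk, hrk, hEe, hat, hEs⟩ hraw hw₁ hw₁1 hη π₀ hπ ε hε
  obtain ⟨M₁, J₁, hM₁⟩ := ld_jh m D k n (b := b) (E := Ec) hb0 (hbw.trans hw1)
  obtain ⟨M₂, J₂, hM₂⟩ := ldp_tg m D k f P₁ (w := w) (E := Ec) hw0 hw1
  obtain ⟨M₃, J₃, hM₃⟩ := ldp_tg m D k f P₂ (w := w) (E := Ec) hw0 hw1
  obtain ⟨M, hM⟩ : ∃ M : ℕ, M = M₁ + M₂ + M₃ := ⟨_, rfl⟩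
  refine Bas.mono (J₁ + J₂ + J₃) (((Pool.GRW.bas_part (HR M) two_pos).and
    (hη.at' κ₁ hκ₁)).and (pos_bas L.pos)) ?_
  rintro J hJ F A₀ ⟨⟨H0', hq⟩, hA₀⟩ A hAA hA2 Hb H LDh C al g q z xc υ Yb B' K θ R hY r hr E hE hE0
  have H1 := H0' A hAA hA2
  have hA : 0 < Pe F.p A := by linarith
  have hJ0 : (0 : ℝ) ≤ J := Nat.cast_nonneg J
  have hcR : Cl2 (ptr F J) (vg w₁ J F) A (cR F A₀ w₁) := by
    refine ⟨?_, ?_⟩
    · choose φ hφ using fun D : {D : F.Ω → Prop // Cl2 (ptr F J) (vg w₁ J F) A₀ D} => D.2.1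
      exact ⟨fun x D => φ D x, fun ω hω => funext fun D => hφ D ω (hAA ω hω)⟩
    · choose φ hφ using fun D : {D : F.Ω → Prop // Cl2 (ptr F J) (vg w₁ J F) A₀ D} => D.2.2
      exact ⟨fun x D => φ D x, fun ω hω => funext fun D => hφ D ω (hAA ω hω)⟩
  have hcell : ∀ v, (cnt F.p (ptr F J) (fun ω => A ω ∧ cR F A₀ w₁ ω = v) : ℝ) ≤
      Real.exp (-((-η - κ₁) * J)) := fun v => by
    have hs : Sub (fun ω => A ω ∧ cR F A₀ w₁ ω = v) (fun ω => A₀ ω ∧ cR F A₀ w₁ ω = v) :=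
      fun ω hω => ⟨hAA ω hω.1, hω.2⟩
    refine le_trans ?_ (cR_cell hq v)
    exact_mod_cast cnt_mono F.p (ptr F J) hs
  -- the event in the family
  obtain ⟨B, hB⟩ : ∃ B : F.Ω → Prop, B = fun ω => A ω ∧ E ω := ⟨_, rfl⟩
  have hBs : Sub B A := fun ω hω => by
    rw [hB] at hω
    exact hω.1
  have e1 : Pe (Pool.Agent.H49.Ent.cond F.p A True) E = Pe F.p B / Pe F.p A := by
    rw [Pe_cond, hB]
  have hPB : π₀ * Pe F.p A ≤ Pe F.p B := by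
    rw [e1, le_div_iff₀ hA] at hE
    exact hE
  have hPB0 : 0 < Pe F.p B := lt_of_lt_of_le (mul_pos hπ hA) hPB
  have e2 : Pool.Agent.H49.Ent.cond (Pool.Agent.H49.Ent.cond F.p A True) E True =
      Pool.Agent.H49.Ent.cond F.p B True := by
    rw [hB]
    exact Piece.cond_inter hA.ne'
  have hcl := isLaw_cond F.isLaw hA
  have hclB := isLaw_cond F.isLaw hPB0
  have H2 := H1 _ (cR F A₀ w₁) hcR hcell (jh F c k ⌊w * J⌋₊ H n)
    (thT F c k f ⌊w * J⌋₊ H P₁) (thT F c k f ⌊w * J⌋₊ H P₂)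
    (hM₁ M (by omega) J (by omega) LDh.toLD e₀ he₀.le)
    (hM₂ M (by omega) J (by omega) LDh e₀ he₀.le) (hM₃ M (by omega) J (by omega) LDh e₀ he₀.le)
    B hBs hPB
  have t1 := (Pool.V0S.CH_part hA hBs hπ hPB (thT F c k f ⌊w * J⌋₊ H P₁)
    (fun ω => (fun i => z ω i / 2 ^ q, Yb ω))).trans
    (div_le_div_of_nonneg_right (R.t1 hcl) hπ.le)
  have t2 := (Pool.V0S.CH_part hA hBs hπ hPB z
    (fun ω => (thT F c k f ⌊w * J⌋₊ H P₂ ω, Yb ω))).trans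
    (div_le_div_of_nonneg_right (R.t2 hcl) hπ.le)
  have t0 := (Pool.V0S.CH_part hA hBs hπ hPB (jh F c k ⌊w * J⌋₊ H n) Yb).trans
    (div_le_div_of_nonneg_right R.yn hπ.le)
  have hY' : Det (Pool.Agent.H49.Ent.cond F.p B True) Yb
      (fun ω => (cR F A₀ w₁ ω, F.W ω)) := by
    have h1 : ∀ ω, 0 < Pool.Agent.H49.Ent.cond F.p B True ω →
        0 < Pool.Agent.H49.Ent.cond F.p A True ω := fun ω hω => by
      obtain ⟨h2, h3⟩ := (cond_pos_iff F.isLaw.nonneg B True ω).1 hω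
      exact (cond_pos_iff F.isLaw.nonneg A True ω).2 ⟨h2, eq_true (hBs ω (of_eq_true h3))⟩
    exact fun ω ω' hω hω' e => hY ω ω' (h1 ω hω) (h1 ω' hω') e
  have key := ent_tr hclB.nonneg (zN := fun ω i => z ω i / 2 ^ q) (zF := z) (Y := Yb)
    (u₁ := thT F c k f ⌊w * J⌋₊ H P₁) (u₂ := thT F c k f ⌊w * J⌋₊ H P₂) hY' t0 t1 t2 H2
  rw [e2]
  refine key.trans (le_trans (le_of_eq ?_) hr)
  ring

/-- **The row of the coordinates of the tie in a box, on a part.** -/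
theorem row_numP (k f : ℕ) : ∃ Cr : ℝ, 1 ≤ Cr ∧
  ∀ {m : ℕ} {S : PCl m} {c : ℕ → Fin m} {sn : ℕ → ℝ → ℝ} {G : Set ℝ} {b o φ : ℝ},
    LadT S c k f sn G b o φ → (range (k + f)).image c = univ.erase (c (k + f)) →
    ∀ {s h w u Λ : ℝ}, 1 ≤ s → o + Λ * u ≤ 1 →
    (∀ l ≤ k + f, Λ * u ≤ sn l b ∧ sn l o + Λ * u ≤ 1) →
    (∀ l, k ≤ l → l ≤ k + f → ∀ v ∈ G, b ≤ v → v ≤ o → |sn l v - sn l w - s * (v - w)| ≤ φ) →
    (∀ P₁ P₂ : ℝ, |P₁ - sn (k + f) w| ≤ Λ * u → |P₂ - sn (k + f) w| ≤ Λ * u → P₁ ≤ P₂ →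
      RawN S (univ.erase (c (k + f))) (c (k + f)) P₁ (P₂ - P₁) h φ) →
    -- the windows and the digits
    ∀ {a w₁ x x' μ ν : ℝ} {n : ℕ → ℝ}, a ∈ G → x ∈ G → x' ∈ G → b ≤ a → a ≤ x → x' ≤ o →
    0 ≤ μ → 0 ≤ ν → s * (x - a) + 3 * Cr * φ ≤ x' - a → s * |x - w| + μ + 4 * Cr * φ ≤ Λ * u →
    s * (x - a) + 3 * φ ≤ Λ * u →
    (∀ i < k, sn i x' ≤ n i ∧ n i ≤ sn i x' + ν) → ν + 30 * ((k : ℝ) + 1) * φ ≤ Λ * u →
    (∃ rk E₁ : ℝ, rk < 1 ∧ 0 ≤ E₁ ∧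
      AttG S ((range (k + f)).image c) (c (k + f)) a (sn (k + f) a) rk E₁ ∧
      sn (k + f) a + E₁ + Λ * u ≤ 1) → a ≤ w₁ → w₁ ≤ 1 →
    (∃ η : ℝ, RNum S (fun J F => ptr F J) (vg w₁) η) → ∀ Dd : Finset ℕ, f ∉ Dd →
    ∀ π₀ : ℝ, 0 < π₀ → ∀ ε : ℝ, 0 < ε →
    ∀ (D : ℕ) (Ec : ℝ), Bas S (fun J F A₀ => ∀ A : F.Ω → Prop, Sub A A₀ →
      Pe F.p A₀ ≤ 2 * Pe F.p A →
      ∀ Hb H : LnT F → ℕ → MvPolynomial (Option (Fin m)) ℝ, LDP F c k f D b a φ Ec sn A Hb H →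
      ∀ {C : ℕ} {al : Fin C → ℕ} {g : Fin C → ℕ} {q : ℕ} {z : F.Ω → Fin C → ℤ}
        {xc : F.Ω → Fin C → ℝ} {υ : Type} {Yb : F.Ω → υ} {B K θ : ℝ},
      RowA F c k f ⌊a * J⌋₊ (Pool.Agent.H49.Ent.cond F.p A True) H n (nP1 k sn x μ (Cr * φ) Dd)
        (nP2 k sn x (Cr * φ)) al g q z xc Yb B K θ →
      Det (Pool.Agent.H49.Ent.cond F.p A True) Yb (fun ω => (cR F A₀ w₁ ω, F.W ω)) →
      ∀ r : ℝ, (((1 - h) + (range f \ Dd).card) * (μ + Cr * φ) * Real.log 2 + φ +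
          8 * ((f : ℝ) + 1) * Cr * φ + ε) * J +
          (((f : ℝ) + 2) * θ + ((f : ℝ) + 1 + C) * Real.log (2 * (K + 2 * B + 2) + 1)) / π₀ ≤ r →
      RowT (Pool.Agent.H49.Ent.cond F.p A True) z Yb q r π₀) := by
  obtain ⟨Cr, hCr1, H0⟩ := row_ldpP k f
  refine ⟨Cr, hCr1, ?_⟩
  intro m S c sn G b o φ L hI s h w u Λ hs hoΛ hroom hlin hrow a w₁ x x' μ ν n ha hx hx' hba hax
    hxo hμ hν hN1 hN2 hN3 hn hνΛ hatt haw hw₁ hη Dd hDd π₀ hπ ε hε D Ec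
  obtain ⟨rk, Ee, hrk, hEe, hat, hEs⟩ := hatt
  have hφ0 := L.φ0
  have hb0 := L.b0
  have hk0 : (0 : ℝ) ≤ k := Nat.cast_nonneg k
  have hkφ : 0 ≤ (k : ℝ) * φ := by positivity
  have hCφ : φ ≤ Cr * φ := le_mul_of_one_le_left hφ0.le hCr1
  have e30 : 30 * ((k : ℝ) + 1) * φ = 30 * (k * φ) + 30 * φ := by ring
  have hsx : x - a ≤ s * (x - a) := le_mul_of_one_le_left (by linarith) hs
  have hxx : x + Cr * φ ≤ x' := by linarith
  have hxo' : x ≤ o := by linarith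
  have hbx : b ≤ x := hba.trans hax
  have hbx' : b ≤ x' := by linarith
  have hao : a ≤ o := hax.trans hxo'
  have hsabs : |x - w| ≤ s * |x - w| := le_mul_of_one_le_left (abs_nonneg _) hs
  have hΛ4 : μ + 4 * Cr * φ ≤ Λ * u := by linarith [abs_nonneg (x - w)]
  -- the levels
  have hlev : ∀ l, k ≤ l → l ≤ k + f → sn l x ≤ sn l a + s * (x - a) + 2 * φ := fun l h1 h2 => by
    have a1 := abs_le.1 (hlin l h1 h2 x hx hbx hxo')
    have a2 := abs_le.1 (hlin l h1 h2 a ha hba hao)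
    have e1 : s * (x - a) = s * (x - w) - s * (a - w) := by ring
    rw [e1]
    linarith [a1.2, a2.1]
  have hup : ∀ l ≤ k + f, ∀ v ∈ G, b ≤ v → v ≤ o → sn l v ≤ sn l o + φ := fun l hl v hv h1 h2 => by
    rcases Nat.lt_or_ge l k with h3 | h3
    · have := abs_le.1 (L.fl l h3 v hv h1 h2)
      linarith [this.2]
    · have := L.st l h3 hl v hv o L.oG h1 h2 le_rfl
      linarith
  have hlo : ∀ l, k ≤ l → l ≤ k + f → Λ * u ≤ sn l x + φ := fun l h1 h2 => by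
    have a1 := L.st l h1 h2 b L.bG x hx le_rfl hbx hxo'
    have a2 := (hroom l h2).1
    linarith
  have hnx : ∀ i < k, sn i x' ≤ n i ∧ n i ≤ 1 := fun i hi => by
    obtain ⟨h1, h2⟩ := hn i hi
    have h3 := hup i (by omega) x' hx' hbx' hxo
    have h4 := (hroom i (by omega)).2
    exact ⟨h1, by linarith⟩
  have htp : Tp k sn b φ n := by
    have e20 : 20 * ((k : ℝ) + 1) * φ = 20 * (k * φ) + 20 * φ := by ring
    have h1 : ∀ i < k, n i - sn i b ≤ x' - b + 2 * φ + ν := fun i hi => by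
      have a1 := abs_le.1 (L.fl i hi x' hx' hbx' hxo)
      have a2 := abs_le.1 (L.fl i hi b L.bG le_rfl L.bo)
      linarith [(hn i hi).2, a1.2, a2.1]
    refine ⟨fun i hi => ?_, fun i hi l hl => ?_⟩
    · rw [e20]
      linarith [h1 i hi]
    · rw [e20]
      have a1 := abs_le.1 (L.fl l (by omega) b L.bG le_rfl L.bo)
      have a2 := (hroom l (by omega)).2
      linarith [h1 i hi, a1.2]
  have e2 : ∀ v, nP2 k sn x (Cr * φ) v = sn (k + v) x - Cr * φ := fun v => rfl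
  have e1 : ∀ v, v ∉ Dd → nP1 k sn x μ (Cr * φ) Dd v = sn (k + v) x - 2 * (Cr * φ) - μ :=
    fun v hv => if_neg hv
  have e1' : ∀ v, v ∈ Dd → nP1 k sn x μ (Cr * φ) Dd v = sn (k + v) x - Cr * φ :=
    fun v hv => if_pos hv
  have hP1le : ∀ v, nP1 k sn x μ (Cr * φ) Dd v ≤ sn (k + v) x - Cr * φ := fun v => by
    by_cases hv : v ∈ Dd
    · rw [e1' v hv]
    · rw [e1 v hv]
      linarith
  have hP1ge : ∀ v, sn (k + v) x - 2 * (Cr * φ) - μ ≤ nP1 k sn x μ (Cr * φ) Dd v := fun v => by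
    by_cases hv : v ∈ Dd
    · rw [e1' v hv]
      linarith
    · rw [e1 v hv]
  have hlw := abs_le.1 (hlin (k + f) (by omega) le_rfl x hx hbx hxo')
  have hsx1 : s * (x - w) ≤ s * |x - w| := mul_le_mul_of_nonneg_left (le_abs_self _) (by linarith)
  have hsx2 : -(s * |x - w|) ≤ s * (x - w) := by
    have h1 : s * (-|x - w|) ≤ s * (x - w) :=
      mul_le_mul_of_nonneg_left (neg_abs_le _) (by linarith)
    linarith
  have hraw : RawN S (univ.erase (c (k + f))) (c (k + f)) (nP1 k sn x μ (Cr * φ) Dd f)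
      (nP2 k sn x (Cr * φ) f - nP1 k sn x μ (Cr * φ) Dd f) h φ := by
    refine hrow _ _ ?_ ?_ ?_
    · rw [e1 f hDd, abs_le]
      constructor <;> linarith [hlw.1, hlw.2]
    · rw [e2, abs_le]
      constructor <;> linarith [hlw.1, hlw.2]
    · rw [e2]
      exact hP1le f
  refine Bas.mono 0 (H0 L hI (w := a) (w₁ := w₁) (x := x) (x' := x') (n := n)
    (P₁ := nP1 k sn x μ (Cr * φ) Dd) (P₂ := nP2 k sn x (Cr * φ)) (h := h) (δ := φ) ha hx hx' hba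
    hax hxx hxo (by linarith) hnx htp (fun v hv => ⟨?_, hP1le v, ?_, ?_, ?_⟩) (fun v _ => ?_)
    (fun v hv l hl => ?_) ⟨rk, Ee, hrk, hEe, hat, ?_⟩ hraw haw hw₁ hη π₀ hπ ε hε D Ec) ?_
  · have h1 := hlo (k + v) (by omega) (by omega)
    have h2 := hP1ge v
    linarith
  · rw [e2]
    have h1 := hup (k + v) (by omega) x hx hbx hxo'
    have h2 := (hroom (k + v) (by omega)).2
    linarith
  · rw [e2]
    linarith
  · rw [e2]
    have h1 := hlev (k + v) (by omega) (by omega)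
    linarith
  · rw [e2]
    linarith
  · rw [e2]
    have h1 := hlev (k + v) (by omega) (by omega)
    have h2 := hup l (by omega) a ha hba hao
    have h3 := (hroom l (by omega)).2
    linarith
  · rw [e2]
    have h1 := hlev (k + f) (by omega) (by omega)
    linarith
  · rintro J - F A₀ H1 A hAA hA2 Hb H LDh C al g q z xc υ Yb B K θ R hY r hr
    refine H1 A hAA hA2 Hb H LDh R hY r (le_trans ?_ hr)
    have hJ0 : (0 : ℝ) ≤ J := Nat.cast_nonneg J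
    have hl2 : 0 < Real.log 2 := Real.log_pos one_lt_two
    have e4 : ∑ v ∈ range f, (nP2 k sn x (Cr * φ) v - nP1 k sn x μ (Cr * φ) Dd v) =
        ((range f \ Dd).card : ℝ) * (μ + Cr * φ) := by
      have e5 : ∀ v ∈ range f, nP2 k sn x (Cr * φ) v - nP1 k sn x μ (Cr * φ) Dd v =
          if v ∉ Dd then μ + Cr * φ else 0 := fun v _ => by
        by_cases hv : v ∈ Dd
        · rw [e2, e1' v hv, if_neg (fun h => h hv), sub_self]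
        · rw [e2, e1 v hv, if_pos hv]
          ring
      rw [Finset.sum_congr rfl e5, ← Finset.sum_filter, Finset.sum_const, nsmul_eq_mul,
        Finset.filter_notMem_eq_sdiff]
    have e6 : nP2 k sn x (Cr * φ) f - nP1 k sn x μ (Cr * φ) Dd f = μ + Cr * φ := by
      rw [e2, e1 f hDd]
      ring
    rw [e4, e6]
    refine le_of_eq ?_
    ring

end Pool.T4R
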